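import Mathlib

set_option autoImplicit false

/-!
# A subspace containing the range of `1 - R`, `R` compact, is closed
-/

namespace Pool.Agent.W_MP_d8b8b7_h67

open Filter Topology

variable {Y : Type*} [NormedAddCommGroup Y] [NormedSpace ℝ Y] [CompleteSpace Y]

/-- the kernel of `1 - R` is finite dimensional -/
theorem finiteDimensional_ker (R : Y →L[ℝ] Y) (hR : IsCompactOperator R) :
    FiniteDimensional ℝ (LinearMap.ker (1 - R : Y →L[ℝ] Y).toLinearMap) := by
  set K : Submodule ℝ Y := LinearMap.ker (1 - R : Y →L[ℝ] Y).toLinearMap with hK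
  have hKc : IsClosed (K : Set Y) := (1 - R : Y →L[ℝ] Y).isClosed_ker
  have hx : ∀ x : K, R (x : Y) = x := by
    intro x
    have h1 : (1 - R : Y →L[ℝ] Y) (x : Y) = 0 := x.2
    have h2 : (x : Y) - R x = 0 := h1
    exact (sub_eq_zero.mp h2).symm
  have h3 : IsCompactOperator ((R : Y → Y) ∘ (K.subtypeL : K → Y)) :=
    hR.comp_clm K.subtypeL
  have h4 : ∀ x : K, ((R : Y → Y) ∘ (K.subtypeL : K → Y)) x ∈ K := by
    intro x
    show R (x : Y) ∈ K
    rw [hx x]
    exact x.2
  have h5 : IsCompactOperator (Set.codRestrict ((R : Y → Y) ∘ (K.subtypeL : K → Y)) K h4) :=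
    h3.codRestrict h4 hKc
  have h6 : Set.codRestrict ((R : Y → Y) ∘ (K.subtypeL : K → Y)) K h4 = id := by
    funext x
    apply Subtype.ext
    exact hx x
  rw [h6] at h5
  exact FiniteDimensional.of_isCompactOperator_id h5

/-- `1 - R` is bounded below on a closed complement of its kernel -/
theorem bounded_below (R : Y →L[ℝ] Y) (hR : IsCompactOperator R) (C : Submodule ℝ Y)
    (hC : IsClosed (C : Set Y))
    (hd : ∀ x ∈ C, x - R x = 0 → x = 0) : ∃ c : ℝ, 0 < c ∧ ∀ x ∈ C, ‖x‖ ≤ c * ‖x - R x‖ := by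
  by_contra hcon
  push Not at hcon
  have h1 : ∀ n : ℕ, ∃ y ∈ C, ‖y‖ = 1 ∧ ‖y - R y‖ ≤ 1 / ((n : ℝ) + 1) := by
    intro n
    have hn : (0 : ℝ) < (n : ℝ) + 1 := by positivity
    obtain ⟨x, hx, hlt⟩ := hcon ((n : ℝ) + 1) hn
    have hx0 : 0 < ‖x‖ := lt_of_le_of_lt (by positivity) hlt
    refine ⟨(‖x‖)⁻¹ • x, C.smul_mem _ hx, ?_, ?_⟩
    · rw [norm_smul, norm_inv, norm_norm, inv_mul_cancel₀ hx0.ne']
    · have h2 : (‖x‖)⁻¹ • x - R ((‖x‖)⁻¹ • x) = (‖x‖)⁻¹ • (x - R x) := by
        rw [map_smul, smul_sub]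
      rw [h2, norm_smul, norm_inv, norm_norm, inv_mul_le_iff₀ hx0, mul_one_div, le_div_iff₀ hn]
      nlinarith [hlt.le]
  choose y hyC hy1 hy2 using h1
  obtain ⟨K, hK, hK'⟩ := hR.image_closedBall_subset_compact 1
  obtain ⟨z, -, φ, hφ, hφz⟩ := hK.tendsto_subseq (x := fun n => R (y n))
    (fun n => hK' ⟨y n, by simp [hy1], rfl⟩)
  have h3 : Tendsto (fun n => y n - R (y n)) atTop (𝓝 0) :=
    squeeze_zero_norm (fun n => hy2 n) tendsto_one_div_add_atTop_nhds_zero_nat
  have h4 : Tendsto (fun n => y (φ n)) atTop (𝓝 z) := by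
    have h5 := (h3.comp hφ.tendsto_atTop).add hφz
    rw [zero_add] at h5
    refine h5.congr (fun n => ?_)
    simp
  have hz1 : ‖z‖ = 1 := by
    have h5 := h4.norm
    have h6 : Tendsto (fun n => ‖y (φ n)‖) atTop (𝓝 1) := by
      simp only [hy1]
      exact tendsto_const_nhds
    exact tendsto_nhds_unique h5 h6
  have hzC : z ∈ C := hC.mem_of_tendsto h4 (Eventually.of_forall fun n => hyC (φ n))
  have hz0 : z - R z = 0 := by
    have h5 : Tendsto (fun n => y (φ n) - R (y (φ n))) atTop (𝓝 (z - R z)) :=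
      h4.sub ((R.continuous.tendsto z).comp h4)
    exact tendsto_nhds_unique h5 (h3.comp hφ.tendsto_atTop)
  have := hd z hzC hz0
  rw [this, norm_zero] at hz1
  exact zero_ne_one hz1

/-- the range of `1 - R` is closed -/
theorem isClosed_range (R : Y →L[ℝ] Y) (hR : IsCompactOperator R) :
    IsClosed (LinearMap.range (1 - R : Y →L[ℝ] Y).toLinearMap : Set Y) := by
  set T : Y →L[ℝ] Y := 1 - R with hT
  have hTx : ∀ x, T x = x - R x := fun x => rfl
  haveI := finiteDimensional_ker R hR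
  obtain ⟨C, hC, hcompl⟩ := (Submodule.ClosedComplemented.of_finiteDimensional
    (LinearMap.ker T.toLinearMap)).exists_isClosed_isCompl
  obtain ⟨c, hc, hcb⟩ := bounded_below R hR C hC (by
    intro x hx h0
    have h1 : x ∈ LinearMap.ker T.toLinearMap := h0
    exact (Submodule.disjoint_def.mp hcompl.disjoint) x h1 hx)
  let TC : C →L[ℝ] Y := T.comp C.subtypeL
  have hanti : AntilipschitzWith (Real.toNNReal c) TC := by
    apply AddMonoidHomClass.antilipschitz_of_bound
    intro x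
    have := hcb x x.2
    rw [Real.coe_toNNReal c hc.le]
    exact this
  haveI : CompleteSpace C := hC.completeSpace_coe
  have h2 : IsClosed (Set.range TC) := hanti.isClosed_range TC.uniformContinuous
  have h3 : (LinearMap.range T.toLinearMap : Set Y) = Set.range TC := by
    ext y
    constructor
    · rintro ⟨x, rfl⟩
      have hx : x ∈ LinearMap.ker T.toLinearMap ⊔ C := by
        rw [hcompl.sup_eq_top]; trivial
      obtain ⟨k, hk, w, hw, rfl⟩ := Submodule.mem_sup.mp hx
      refine ⟨⟨w, hw⟩, ?_⟩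
      show T w = T (k + w)
      rw [map_add]
      have : T k = 0 := hk
      rw [this, zero_add]
    · rintro ⟨x, rfl⟩
      exact ⟨x, rfl⟩
  rw [h3]
  exact h2

/-- the range of `1 - R` has finite codimension -/
theorem finite_quotient (R : Y →L[ℝ] Y) (F : Submodule ℝ Y) (hF : IsClosed (F : Set Y))
    (hR : IsCompactOperator R) (h : ∀ y, y - R y ∈ F) : FiniteDimensional ℝ (Y ⧸ F) := by
  haveI : IsClosed (F : Set Y) := hF
  have hid : IsCompactOperator (id : (Y ⧸ F) → (Y ⧸ F)) := by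
    obtain ⟨K, hK, hKn⟩ := hR
    refine ⟨(F.mkQ : Y → Y ⧸ F) '' K, ?_, ?_⟩
    · exact hK.image F.mkQL.continuous
    · have h1 : (F.mkQ : Y → Y ⧸ F) '' ((R : Y → Y) ⁻¹' K) ⊆ id ⁻¹' ((F.mkQ : Y → Y ⧸ F) '' K) := by
        rintro _ ⟨x, hx, rfl⟩
        refine ⟨R x, hx, ?_⟩
        show F.mkQ (R x) = F.mkQ x
        rw [eq_comm, ← sub_eq_zero, ← map_sub]
        exact (Submodule.Quotient.mk_eq_zero F).mpr (h x)
      refine mem_of_superset ?_ h1
      have h2 : IsOpenMap (F.mkQ : Y → Y ⧸ F) := F.isOpenMap_mkQ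
      have h3 := h2.image_mem_nhds hKn
      rwa [map_zero] at h3
  exact FiniteDimensional.of_isCompactOperator_id hid

/-- **Riesz**: a subspace containing the range of `1 - R`, `R` compact, is closed. -/
theorem isClosed_of_sub_mem (R : Y →L[ℝ] Y) (hR : IsCompactOperator R) (D : Submodule ℝ Y)
    (hD : ∀ y, y - R y ∈ D) : IsClosed (D : Set Y) := by
  set F : Submodule ℝ Y := LinearMap.range (1 - R : Y →L[ℝ] Y).toLinearMap with hFdef
  have hF : IsClosed (F : Set Y) := isClosed_range R hR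
  have hFD : F ≤ D := by
    rintro _ ⟨x, rfl⟩
    exact hD x
  haveI : IsClosed (F : Set Y) := hF
  haveI : FiniteDimensional ℝ (Y ⧸ F) :=
    finite_quotient R F hF hR (fun y => ⟨y, rfl⟩)
  have h1 : (D : Set Y) = (F.mkQL : Y → Y ⧸ F) ⁻¹' ((D.map F.mkQ : Submodule ℝ (Y ⧸ F)) : Set (Y ⧸ F)) := by
    ext y
    constructor
    · intro hy
      exact ⟨y, hy, rfl⟩
    · rintro ⟨z, hz, hzy⟩
      have h2 : F.mkQ (y - z) = 0 := by
        rw [map_sub, sub_eq_zero]
        exact hzy.symm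
      have h3 : y - z ∈ F := (Submodule.Quotient.mk_eq_zero F).mp h2
      have h4 : y = (y - z) + z := by abel
      rw [h4]
      exact D.add_mem (hFD h3) hz
  rw [h1]
  exact (Submodule.closed_of_finiteDimensional _).preimage F.mkQL.continuous

/-- Abstract exactness lemma: `B ≤ Z` subspaces, `R` compact maps the closure of `Z` into `Z`,
and `z - R z ∈ B` for `z ∈ Z`.  Then every element of `Z` in the closure of `B` is in `B`. -/
theorem mem_of_mem_closure (R : Y →L[ℝ] Y) (hR : IsCompactOperator R) (Z B : Submodule ℝ Y)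
    (hBZ : B ≤ Z) (hRZ : ∀ z ∈ Z.topologicalClosure, R z ∈ Z) (h1 : ∀ z ∈ Z, z - R z ∈ B)
    (b : Y) (hb : b ∈ Z) (hcl : b ∈ closure (B : Set Y)) : b ∈ B := by
  set W : Submodule ℝ Y := Z.topologicalClosure with hW
  have hWc : IsClosed (W : Set Y) := Z.isClosed_topologicalClosure
  haveI : CompleteSpace W := hWc.completeSpace_coe
  have hZW : Z ≤ W := Z.le_topologicalClosure
  have hmaps : ∀ w : W, (R.comp W.subtypeL) w ∈ W := fun w => hZW (hRZ w w.2)
  let RW : W →L[ℝ] W := (R.comp W.subtypeL).codRestrict W hmaps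
  have hRW : IsCompactOperator RW := by
    have h2 : IsCompactOperator ((R : Y → Y) ∘ (W.subtypeL : W → Y)) := hR.comp_clm W.subtypeL
    exact h2.codRestrict (V := W) hmaps hWc
  let D : Submodule ℝ W := B.comap (R.toLinearMap.comp W.subtype)
  have hD : ∀ w : W, w - RW w ∈ D := by
    intro w
    show R ((w - RW w : W) : Y) ∈ B
    have h3 : ((w - RW w : W) : Y) = (w : Y) - R w := rfl
    rw [h3, map_sub]
    exact h1 _ (hRZ w w.2)
  have hDc : IsClosed (D : Set W) := isClosed_of_sub_mem RW hRW D hD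
  have hBD : ∀ z : Y, ∀ hz : z ∈ Z, ((⟨z, hZW hz⟩ : W) ∈ D ↔ z ∈ B) := by
    intro z hz
    have h4 : (⟨z, hZW hz⟩ : W) ∈ D ↔ R z ∈ B := Iff.rfl
    rw [h4]
    constructor
    · intro h5
      have := B.add_mem (h1 z hz) h5
      simpa using this
    · intro h5
      have := B.sub_mem h5 (h1 z hz)
      simpa using this
  rw [← hBD b hb]
  have h6 : (⟨b, hZW hb⟩ : W) ∈ closure (D : Set W) := by
    rw [mem_closure_iff_seq_limit] at hcl ⊢
    obtain ⟨u, hu, hlim⟩ := hcl
    refine ⟨fun n => ⟨u n, hZW (hBZ (hu n))⟩, fun n => (hBD (u n) (hBZ (hu n))).mpr (hu n), ?_⟩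
    rw [tendsto_subtype_rng]
    exact hlim
  rwa [hDc.closure_eq] at h6

end Pool.Agent.W_MP_d8b8b7_h67
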