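import Mathlib

set_option autoImplicit false

/-!
# Smoothness of integrals depending on a parameter
-/

namespace Pool.Agent.W_MP_d8b8b7_h67

open MeasureTheory Set Filter Topology
open scoped ContDiff

variable {V P : Type} [NormedAddCommGroup V] [NormedSpace ℝ V] [ProperSpace V]
  [NormedAddCommGroup P] [NormedSpace ℝ P] [MeasurableSpace P] [BorelSpace P]
  [SecondCountableTopology P]

/-- partial derivative in the first variable -/
noncomputable def px {E : Type} [NormedAddCommGroup E] [NormedSpace ℝ E]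
    (F : V × P → E) (z : V × P) : V →L[ℝ] E :=
  (fderiv ℝ F z).comp (ContinuousLinearMap.inl ℝ V P)

theorem hasFDerivAt_param {E : Type} [NormedAddCommGroup E] [NormedSpace ℝ E]
    {μ : Measure P} [IsFiniteMeasure μ] {K : Set P} (hK : IsCompact K)
    (hμ : μ Kᶜ = 0) {F : V × P → E} (hF : ContDiff ℝ 1 F) (x₀ : V) :
    HasFDerivAt (fun x => ∫ p, F (x, p) ∂μ) (∫ p, px F (x₀, p) ∂μ) x₀ := by
  have hpx : Continuous (px F) :=
    (hF.continuous_fderiv one_ne_zero).clm_comp continuous_const
  have hK' : ∀ᵐ p ∂μ, p ∈ K := by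
    rw [ae_iff]
    exact hμ
  obtain ⟨C, hC⟩ := ((isCompact_closedBall x₀ 1).prod hK).exists_bound_of_continuousOn
    hpx.continuousOn
  obtain ⟨C', hC'⟩ := ((isCompact_closedBall x₀ 1).prod hK).exists_bound_of_continuousOn
    hF.continuous.continuousOn
  refine hasFDerivAt_integral_of_dominated_of_fderiv_le
    (F := fun x p => F (x, p)) (F' := fun x p => px F (x, p))
    (bound := fun _ => C) (Metric.closedBall_mem_nhds x₀ zero_lt_one) ?_ ?_ ?_ ?_ ?_ ?_
  · exact Eventually.of_forall fun x =>
      (hF.continuous.comp (by fun_prop : Continuous fun p : P => (x, p))).aestronglyMeasurable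
  · refine Integrable.of_bound (C := C')
      (hF.continuous.comp (by fun_prop : Continuous fun p : P => (x₀, p))).aestronglyMeasurable ?_
    filter_upwards [hK'] with p hp
    exact hC' (x₀, p) ⟨Metric.mem_closedBall_self zero_le_one, hp⟩
  · exact (hpx.comp (by fun_prop : Continuous fun p : P => (x₀, p))).aestronglyMeasurable
  · filter_upwards [hK'] with p hp x hx
    exact hC (x, p) ⟨hx, hp⟩
  · exact integrable_const C
  · refine Eventually.of_forall fun p x _ => ?_
    have h1 : HasFDerivAt F (fderiv ℝ F (x, p)) (x, p) :=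
      (hF.differentiable one_ne_zero (x, p)).hasFDerivAt
    have h2 : HasFDerivAt (fun x : V => (x, p)) (ContinuousLinearMap.inl ℝ V P) x :=
      hasFDerivAt_prodMk_left x p
    exact h1.comp x h2

omit [NormedSpace ℝ V] [NormedSpace ℝ P] in
theorem continuous_param {E : Type} [NormedAddCommGroup E] [NormedSpace ℝ E]
    {μ : Measure P} [IsFiniteMeasure μ] {K : Set P} (hK : IsCompact K)
    (hμ : μ Kᶜ = 0) {F : V × P → E} (hF : Continuous F) :
    Continuous (fun x => ∫ p, F (x, p) ∂μ) := by
  have hK' : ∀ᵐ p ∂μ, p ∈ K := by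
    rw [ae_iff]
    exact hμ
  rw [continuous_iff_continuousAt]
  intro x₀
  obtain ⟨C, hC⟩ := ((isCompact_closedBall x₀ 1).prod hK).exists_bound_of_continuousOn
    hF.continuousOn
  refine continuousAt_of_dominated (bound := fun _ => C) ?_ ?_ (integrable_const C) ?_
  · exact Eventually.of_forall fun x =>
      (hF.comp (by fun_prop : Continuous fun p : P => (x, p))).aestronglyMeasurable
  · filter_upwards [Metric.closedBall_mem_nhds x₀ zero_lt_one] with x hx
    filter_upwards [hK'] with p hp
    exact hC (x, p) ⟨hx, hp⟩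
  · exact Eventually.of_forall fun p =>
      (hF.comp (by fun_prop : Continuous fun x : V => (x, p))).continuousAt

theorem contDiff_param_nat {μ : Measure P} [IsFiniteMeasure μ] {K : Set P} (hK : IsCompact K)
    (hμ : μ Kᶜ = 0) (n : ℕ) : ∀ {E : Type} [NormedAddCommGroup E] [NormedSpace ℝ E]
    {F : V × P → E}, ContDiff ℝ ∞ F → ContDiff ℝ n (fun x => ∫ p, F (x, p) ∂μ) := by
  induction n with
  | zero =>
    intro E _ _ F hF
    exact contDiff_zero.mpr (continuous_param hK hμ hF.continuous)
  | succ n ih =>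
    intro E _ _ F hF
    have h1 : ∀ x, HasFDerivAt (fun x => ∫ p, F (x, p) ∂μ) (∫ p, px F (x, p) ∂μ) x :=
      fun x => hasFDerivAt_param hK hμ (hF.of_le (by exact_mod_cast le_top)) x
    have h2 : fderiv ℝ (fun x => ∫ p, F (x, p) ∂μ) = fun x => ∫ p, px F (x, p) ∂μ :=
      funext fun x => (h1 x).fderiv
    have h3 : ContDiff ℝ ∞ (px F) :=
      (hF.fderiv_right (m := ∞) (by simp)).clm_comp contDiff_const
    rw [Nat.cast_succ, contDiff_succ_iff_fderiv, h2]
    refine ⟨fun x => (h1 x).differentiableAt, ?_, ih h3⟩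
    intro h
    exact absurd h (WithTop.natCast_ne_top n)

/-- smoothness of integrals depending on a parameter -/
theorem contDiff_param {μ : Measure P} [IsFiniteMeasure μ] {K : Set P} (hK : IsCompact K)
    (hμ : μ Kᶜ = 0) {E : Type} [NormedAddCommGroup E] [NormedSpace ℝ E]
    {F : V × P → E} (hF : ContDiff ℝ ∞ F) : ContDiff ℝ ∞ (fun x => ∫ p, F (x, p) ∂μ) :=
  contDiff_infty.mpr fun n => contDiff_param_nat hK hμ n hF

omit [NormedSpace ℝ V] [NormedSpace ℝ P] in
theorem integrable_param {E : Type} [NormedAddCommGroup E] [NormedSpace ℝ E]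
    {μ : Measure P} [IsFiniteMeasure μ] {K : Set P} (hK : IsCompact K)
    (hμ : μ Kᶜ = 0) {F : V × P → E} (hF : Continuous F) (x : V) :
    Integrable (fun p => F (x, p)) μ := by
  have hK' : ∀ᵐ p ∂μ, p ∈ K := by
    rw [ae_iff]
    exact hμ
  obtain ⟨C', hC'⟩ := ((isCompact_closedBall x 1).prod hK).exists_bound_of_continuousOn
    hF.continuousOn
  refine Integrable.of_bound (C := C')
      (hF.comp (by fun_prop : Continuous fun p : P => (x, p))).aestronglyMeasurable ?_
  filter_upwards [hK'] with p hp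
  exact hC' (x, p) ⟨Metric.mem_closedBall_self zero_le_one, hp⟩

end Pool.Agent.W_MP_d8b8b7_h67
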