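import Mathlib

set_option autoImplicit false

/-!
# Pull back of forms by a smooth map commutes with the exterior derivative

Everything is stated for an abstract normed space `V` (instance unification on `EuclideanSpace` is
slow) and is used for `V = EN N`.
-/

namespace Pool.Agent.W_MP_d8b8b7_h67

open scoped ContDiff

section Generic

variable {V : Type} [NormedAddCommGroup V] [NormedSpace ℝ V]

/-- pull back of a bilinear form by a linear map -/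
noncomputable def pull (A : V →L[ℝ] V) (b : V →L[ℝ] V →L[ℝ] ℝ) : V →L[ℝ] V →L[ℝ] ℝ :=
  b.bilinearComp A A

/-- exterior derivative of a 1-form -/
noncomputable def gOne (α : V → V →L[ℝ] ℝ) (x : V) : V →L[ℝ] V →L[ℝ] ℝ :=
  fderiv ℝ α x - (fderiv ℝ α x).flip

/-- exterior derivative of a 2-form -/
noncomputable def gTwo (β : V → V →L[ℝ] V →L[ℝ] ℝ) (x u v w : V) : ℝ :=
  fderiv ℝ β x u v w - fderiv ℝ β x v u w + fderiv ℝ β x w u v

/-- pull back of a 2-form by a map -/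
noncomputable def pb (ρ : V → V) (β : V → V →L[ℝ] V →L[ℝ] ℝ) (y : V) : V →L[ℝ] V →L[ℝ] ℝ :=
  pull (fderiv ℝ ρ y) (β (ρ y))

/-- pull back of a 1-form by a map -/
noncomputable def pb1 (ρ : V → V) (α : V → V →L[ℝ] ℝ) (y : V) : V →L[ℝ] ℝ :=
  (α (ρ y)).comp (fderiv ℝ ρ y)

theorem pb_apply (ρ : V → V) (β : V → V →L[ℝ] V →L[ℝ] ℝ) (y v w : V) :
    pb ρ β y v w = β (ρ y) (fderiv ℝ ρ y v) (fderiv ℝ ρ y w) := rfl

theorem pb1_apply (ρ : V → V) (α : V → V →L[ℝ] ℝ) (y v : V) :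
    pb1 ρ α y v = α (ρ y) (fderiv ℝ ρ y v) := rfl

theorem contDiff_fderiv' {E F : Type} [NormedAddCommGroup E] [NormedSpace ℝ E]
    [NormedAddCommGroup F] [NormedSpace ℝ F] {f : E → F} (hf : ContDiff ℝ ∞ f) :
    ContDiff ℝ ∞ (fderiv ℝ f) := hf.fderiv_right (m := ∞) (by simp)

theorem contDiff_flip {E F G P : Type} [NormedAddCommGroup E] [NormedSpace ℝ E]
    [NormedAddCommGroup F] [NormedSpace ℝ F] [NormedAddCommGroup G] [NormedSpace ℝ G]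
    [NormedAddCommGroup P] [NormedSpace ℝ P]
    {f : P → E →L[ℝ] F →L[ℝ] G} (hf : ContDiff ℝ ∞ f) :
    ContDiff ℝ ∞ (fun p => (f p).flip) := by
  have h := (ContinuousLinearMap.flipₗᵢ ℝ E F G).contDiff (n := ∞) (𝕜 := ℝ)
    (E := E →L[ℝ] F →L[ℝ] G) (F := F →L[ℝ] E →L[ℝ] G)
  exact h.comp hf

theorem contDiff_pull {P : Type} [NormedAddCommGroup P] [NormedSpace ℝ P]
    {A : P → (V →L[ℝ] V)} {b : P → V →L[ℝ] V →L[ℝ] ℝ} (hA : ContDiff ℝ ∞ A)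
    (hb : ContDiff ℝ ∞ b) :
    ContDiff ℝ ∞ (fun p => pull (A p) (b p)) :=
  contDiff_flip ((contDiff_flip (hb.clm_comp hA)).clm_comp hA)

theorem contDiff_pb {ρ : V → V} (hρ : ContDiff ℝ ∞ ρ) {β : V → V →L[ℝ] V →L[ℝ] ℝ}
    (hβ : ContDiff ℝ ∞ β) : ContDiff ℝ ∞ (pb ρ β) :=
  contDiff_pull (contDiff_fderiv' hρ) (hβ.comp hρ)

theorem contDiff_pb1 {ρ : V → V} (hρ : ContDiff ℝ ∞ ρ) {α : V → V →L[ℝ] ℝ}
    (hα : ContDiff ℝ ∞ α) : ContDiff ℝ ∞ (pb1 ρ α) :=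
  (hα.comp hρ).clm_comp (contDiff_fderiv' hρ)

theorem contDiff_gOne {α : V → V →L[ℝ] ℝ} (hα : ContDiff ℝ ∞ α) : ContDiff ℝ ∞ (gOne α) :=
  (contDiff_fderiv' hα).sub (contDiff_flip (contDiff_fderiv' hα))

theorem skew_of_alt {b : V →L[ℝ] V →L[ℝ] ℝ} (hb : ∀ v, b v v = 0) (v w : V) :
    b v w = - b w v := by
  have h := hb (v + w)
  simp only [map_add, add_apply, hb] at h
  linarith

theorem symm_snd {ρ : V → V} (hρ : ContDiff ℝ ∞ ρ) (y u v : V) :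
    fderiv ℝ (fderiv ℝ ρ) y u v = fderiv ℝ (fderiv ℝ ρ) y v u := by
  refine (hρ.contDiffAt.isSymmSndFDerivAt ?_).eq u v
  rw [minSmoothness_of_isRCLikeNormedField]
  exact ENat.LEInfty.out

theorem fderiv_pb {ρ : V → V} (hρ : ContDiff ℝ ∞ ρ) {β : V → V →L[ℝ] V →L[ℝ] ℝ}
    (hβ : ContDiff ℝ ∞ β) (y u v w : V) :
    fderiv ℝ (pb ρ β) y u v w =
      fderiv ℝ β (ρ y) (fderiv ℝ ρ y u) (fderiv ℝ ρ y v) (fderiv ℝ ρ y w)
      + β (ρ y) (fderiv ℝ (fderiv ℝ ρ) y u v) (fderiv ℝ ρ y w)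
      + β (ρ y) (fderiv ℝ ρ y v) (fderiv ℝ (fderiv ℝ ρ) y u w) := by
  have hd : ∀ y, HasFDerivAt (fderiv ℝ ρ) (fderiv ℝ (fderiv ℝ ρ) y) y := fun y =>
    ((contDiff_fderiv' hρ).differentiable (by simp) y).hasFDerivAt
  have hr : ∀ y, HasFDerivAt ρ (fderiv ℝ ρ y) y := fun y =>
    (hρ.differentiable (by simp) y).hasFDerivAt
  have hb : HasFDerivAt (fun y => β (ρ y)) ((fderiv ℝ β (ρ y)).comp (fderiv ℝ ρ y)) y :=
    ((hβ.differentiable (by simp) (ρ y)).hasFDerivAt).comp y (hr y)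
  have h1 := (hb.clm_apply ((hd y).clm_apply (hasFDerivAt_const v y))).clm_apply
    ((hd y).clm_apply (hasFDerivAt_const w y))
  have hB : HasFDerivAt (pb ρ β) (fderiv ℝ (pb ρ β) y) y :=
    ((contDiff_pb hρ hβ).differentiable (by simp) y).hasFDerivAt
  have h3 := (hB.clm_apply (hasFDerivAt_const v y)).clm_apply (hasFDerivAt_const w y)
  have h4 := h3.unique h1
  have h5 := congrArg (fun L => L u) h4
  simp at h5
  rw [h5]
  ring

/-- pull back commutes with d on 2-forms -/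
theorem gTwo_pb {ρ : V → V} (hρ : ContDiff ℝ ∞ ρ) {β : V → V →L[ℝ] V →L[ℝ] ℝ}
    (hβ : ContDiff ℝ ∞ β) (halt : ∀ x v, β x v v = 0) (y u v w : V) :
    gTwo (pb ρ β) y u v w =
      gTwo β (ρ y) (fderiv ℝ ρ y u) (fderiv ℝ ρ y v) (fderiv ℝ ρ y w) := by
  unfold gTwo
  rw [fderiv_pb hρ hβ, fderiv_pb hρ hβ, fderiv_pb hρ hβ,
    symm_snd hρ y v u, symm_snd hρ y w u, symm_snd hρ y w v,
    skew_of_alt (halt (ρ y)) (fderiv ℝ (fderiv ℝ ρ) y u w) (fderiv ℝ ρ y v)]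
  ring

/-- pull back commutes with d on 1-forms -/
theorem gOne_pb1 {ρ : V → V} (hρ : ContDiff ℝ ∞ ρ) {α : V → V →L[ℝ] ℝ}
    (hα : ContDiff ℝ ∞ α) (y : V) : gOne (pb1 ρ α) y = pb ρ (gOne α) y := by
  have hd : HasFDerivAt (fderiv ℝ ρ) (fderiv ℝ (fderiv ℝ ρ) y) y :=
    ((contDiff_fderiv' hρ).differentiable (by simp) y).hasFDerivAt
  have hr : HasFDerivAt ρ (fderiv ℝ ρ y) y := (hρ.differentiable (by simp) y).hasFDerivAt
  have hb : HasFDerivAt (fun y => α (ρ y)) ((fderiv ℝ α (ρ y)).comp (fderiv ℝ ρ y)) y :=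
    ((hα.differentiable (by simp) (ρ y)).hasFDerivAt).comp y hr
  have h1 := hb.clm_comp hd
  have h2 : fderiv ℝ (pb1 ρ α) y = _ := h1.fderiv
  ext u v
  show fderiv ℝ (pb1 ρ α) y u v - fderiv ℝ (pb1 ρ α) y v u = _
  rw [h2, pb_apply]
  show _ = fderiv ℝ α (ρ y) (fderiv ℝ ρ y u) (fderiv ℝ ρ y v)
    - fderiv ℝ α (ρ y) (fderiv ℝ ρ y v) (fderiv ℝ ρ y u)
  simp
  rw [symm_snd hρ y v u]
  ring

end Generic

end Pool.Agent.W_MP_d8b8b7_h67
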