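import Mathlib
import Pool.Agent.W_MP_d8b8b7_h67.Pull
import Pool.Agent.W_MP_d8b8b7_h67.Param

set_option autoImplicit false
set_option linter.unusedSectionVars false
set_option linter.style.haveILetI false

/-!
# Flat homotopy formula for averages of translates
-/

namespace Pool.Agent.W_MP_d8b8b7_h67

open MeasureTheory Set Filter Topology
open scoped ContDiff

section GenW

variable {V W W' : Type} [NormedAddCommGroup V] [NormedSpace ℝ V]
  [NormedAddCommGroup W] [NormedSpace ℝ W] [NormedAddCommGroup W'] [NormedSpace ℝ W']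

theorem hasFDerivAt_comp_sub {B : V → W} (hB : ContDiff ℝ ∞ B) (L : W →L[ℝ] W') (c x : V) :
    HasFDerivAt (fun x => L (B (x - c))) (L.comp (fderiv ℝ B (x - c))) x := by
  have h4 : HasFDerivAt B (fderiv ℝ B (x - c)) (x - c) :=
    (hB.differentiable (by simp) _).hasFDerivAt
  have h5 : HasFDerivAt (fun x : V => x - c) (ContinuousLinearMap.id ℝ V) x :=
    (hasFDerivAt_id x).sub_const _
  have h6 := L.hasFDerivAt.comp x (h4.comp x h5)
  rwa [ContinuousLinearMap.comp_id] at h6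

theorem continuous_seg {B : V → W} (hB : ContDiff ℝ ∞ B) (L : W →L[ℝ] ℝ) (x t : V) :
    Continuous fun τ : ℝ => L (fderiv ℝ B (x - τ • t) (-t)) := by
  have h2 : Continuous (fderiv ℝ B) := (contDiff_fderiv' hB).continuous
  have h3 : Continuous fun τ : ℝ => x - τ • t := by fun_prop
  exact L.continuous.comp ((h2.comp h3).clm_apply continuous_const)

/-- fundamental theorem of calculus along a segment -/
theorem ftc_seg {B : V → W} (hB : ContDiff ℝ ∞ B) (L : W →L[ℝ] ℝ) (x t : V) :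
    ∫ τ in Icc (0 : ℝ) 1, L (fderiv ℝ B (x - τ • t) (-t)) = L (B (x - t)) - L (B x) := by
  have h1 : ∀ τ : ℝ, HasDerivAt (fun τ : ℝ => L (B (x - τ • t)))
      (L (fderiv ℝ B (x - τ • t) (-t))) τ := by
    intro τ
    have h4 : HasFDerivAt B (fderiv ℝ B (x - τ • t)) (x - τ • t) :=
      (hB.differentiable (by simp) _).hasFDerivAt
    have h5 : HasDerivAt (fun τ : ℝ => x - τ • t) (-t) τ := by
      have := ((hasDerivAt_id τ).smul_const t).const_sub x
      simpa using this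
    exact L.hasFDerivAt.comp_hasDerivAt τ (h4.comp_hasDerivAt τ h5)
  rw [integral_Icc_eq_integral_Ioc, ← intervalIntegral.integral_of_le zero_le_one,
    intervalIntegral.integral_eq_sub_of_hasDerivAt (fun τ _ => h1 τ)
      ((continuous_seg hB L x t).intervalIntegrable 0 1)]
  simp

variable [FiniteDimensional ℝ V] [MeasurableSpace V] [BorelSpace V]

/-- average of the translates -/
noncomputable def avg (ν : Measure V) (δ : ℝ) (φ : V → ℝ) (B : V → W) (x : V) : W :=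
  ∫ t in Metric.closedBall (0 : V) δ, φ t • B (x - t) ∂ν

theorem avg_integrable (ν : Measure V) [IsLocallyFiniteMeasure ν] (δ : ℝ) {φ : V → ℝ}
    (hφ : Continuous φ) {B : V → W} (hB : Continuous B) (x : V) :
    Integrable (fun t => φ t • B (x - t)) (ν.restrict (Metric.closedBall (0 : V) δ)) := by
  haveI : ProperSpace V := FiniteDimensional.proper ℝ V
  have hc : Continuous fun t => φ t • B (x - t) :=
    hφ.smul (hB.comp (by fun_prop))
  exact hc.continuousOn.integrableOn_compact (isCompact_closedBall _ _)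

theorem avg_apply [CompleteSpace W] (ν : Measure V) [IsLocallyFiniteMeasure ν] (δ : ℝ) {φ : V → ℝ}
    (hφ : Continuous φ) {B : V → W} (hB : Continuous B) (L : W →L[ℝ] ℝ) (x : V) :
    L (avg ν δ φ B x) = ∫ t in Metric.closedBall (0 : V) δ, φ t * L (B (x - t)) ∂ν := by
  unfold avg
  rw [← L.integral_comp_comm (avg_integrable ν δ hφ hB x)]
  simp

theorem avg_L_integrable (ν : Measure V) [IsLocallyFiniteMeasure ν] (δ : ℝ) {φ : V → ℝ}
    (hφ : Continuous φ) {B : V → W} (hB : Continuous B) (L : W →L[ℝ] ℝ) (x : V) :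
    Integrable (fun t => φ t * L (B (x - t))) (ν.restrict (Metric.closedBall (0 : V) δ)) := by
  have := L.integrable_comp (avg_integrable ν δ hφ hB x)
  simpa using this

/-- the parameter measure on `V × ℝ` -/
noncomputable def pmes (ν : Measure V) (δ : ℝ) : Measure (V × ℝ) :=
  (ν.restrict (Metric.closedBall 0 δ)).prod (volume.restrict (Icc (0 : ℝ) 1))

instance instFinPmes (ν : Measure V) [IsLocallyFiniteMeasure ν] (δ : ℝ) :
    IsFiniteMeasure (pmes ν δ) := by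
  haveI : ProperSpace V := FiniteDimensional.proper ℝ V
  haveI : IsFiniteMeasure (ν.restrict (Metric.closedBall (0 : V) δ)) :=
    ⟨by rw [Measure.restrict_apply_univ]; exact (isCompact_closedBall (0 : V) δ).measure_lt_top⟩
  unfold pmes
  infer_instance

theorem pmes_compl (ν : Measure V) [IsLocallyFiniteMeasure ν] (δ : ℝ) :
    pmes ν δ (Metric.closedBall (0 : V) δ ×ˢ Icc (0 : ℝ) 1)ᶜ = 0 := by
  haveI : ProperSpace V := FiniteDimensional.proper ℝ V
  haveI : IsFiniteMeasure (ν.restrict (Metric.closedBall (0 : V) δ)) :=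
    ⟨by rw [Measure.restrict_apply_univ]; exact (isCompact_closedBall (0 : V) δ).measure_lt_top⟩
  have h1 : ∀ᵐ x ∂(ν.restrict (Metric.closedBall (0 : V) δ)), x ∈ Metric.closedBall (0 : V) δ :=
    ae_restrict_mem Metric.isClosed_closedBall.measurableSet
  have h2 : ∀ᵐ x ∂(volume.restrict (Icc (0 : ℝ) 1)), x ∈ Icc (0 : ℝ) 1 :=
    ae_restrict_mem measurableSet_Icc
  have h3 : ∀ᵐ z ∂(pmes ν δ), z ∈ Metric.closedBall (0 : V) δ ×ˢ Icc (0 : ℝ) 1 := by
    unfold pmes
    exact (Measure.ae_prod_mem_iff_ae_ae_mem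
      (Metric.isClosed_closedBall.measurableSet.prod measurableSet_Icc)).mpr
      (by filter_upwards [h1] with x hx; filter_upwards [h2] with y hy; exact ⟨hx, hy⟩)
  exact h3

end GenW

variable {V : Type} [NormedAddCommGroup V] [NormedSpace ℝ V] [FiniteDimensional ℝ V]
  [MeasurableSpace V] [BorelSpace V]

/-- evaluation of a bilinear form -/
noncomputable def ev2 (u v : V) : (V →L[ℝ] V →L[ℝ] ℝ) →L[ℝ] ℝ :=
  (ContinuousLinearMap.apply ℝ ℝ v).comp (ContinuousLinearMap.apply ℝ (V →L[ℝ] ℝ) u)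

theorem ev2_apply (u v : V) (b : V →L[ℝ] V →L[ℝ] ℝ) : ev2 u v b = b u v := rfl

/-- the integrand -/
noncomputable def kInt (φ : V → ℝ) (B : V → V →L[ℝ] V →L[ℝ] ℝ) (z : V × (V × ℝ)) : V →L[ℝ] ℝ :=
  φ z.2.1 • (B (z.1 - z.2.2 • z.2.1)) (-z.2.1)

/-- the primitive -/
noncomputable def kOp (ν : Measure V) (δ : ℝ) (φ : V → ℝ) (B : V → V →L[ℝ] V →L[ℝ] ℝ) (x : V) :
    V →L[ℝ] ℝ := ∫ p, kInt φ B (x, p) ∂(pmes ν δ)

theorem contDiff_kInt {φ : V → ℝ} (hφ : ContDiff ℝ ∞ φ) {B : V → V →L[ℝ] V →L[ℝ] ℝ}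
    (hB : ContDiff ℝ ∞ B) : ContDiff ℝ ∞ (kInt φ B) := by
  have h1 : ContDiff ℝ ∞ (fun z : V × (V × ℝ) => z.2.1) := by fun_prop
  have h2 : ContDiff ℝ ∞ (fun z : V × (V × ℝ) => z.1 - z.2.2 • z.2.1) := by fun_prop
  exact (hφ.comp h1).smul ((hB.comp h2).clm_apply h1.neg)

theorem contDiff_kOp (ν : Measure V) [IsLocallyFiniteMeasure ν] (δ : ℝ)
    {φ : V → ℝ} (hφ : ContDiff ℝ ∞ φ) {B : V → V →L[ℝ] V →L[ℝ] ℝ}
    (hB : ContDiff ℝ ∞ B) : ContDiff ℝ ∞ (kOp ν δ φ B) := by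
  haveI : ProperSpace V := FiniteDimensional.proper ℝ V
  exact contDiff_param ((isCompact_closedBall (0 : V) δ).prod isCompact_Icc) (pmes_compl ν δ)
    (contDiff_kInt hφ hB)

theorem px_kInt {φ : V → ℝ} (hφ : ContDiff ℝ ∞ φ) {B : V → V →L[ℝ] V →L[ℝ] ℝ}
    (hB : ContDiff ℝ ∞ B) (x t : V) (τ : ℝ) (u v : V) :
    px (kInt φ B) (x, (t, τ)) u v = φ t * (fderiv ℝ B (x - τ • t) u (-t) v) := by
  have h1 : HasFDerivAt (fun x => kInt φ B (x, (t, τ))) (px (kInt φ B) (x, (t, τ))) x := by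
    have h2 : HasFDerivAt (kInt φ B) (fderiv ℝ (kInt φ B) (x, (t, τ))) (x, (t, τ)) :=
      ((contDiff_kInt hφ hB).differentiable (by simp) _).hasFDerivAt
    have h3 : HasFDerivAt (fun x : V => (x, (t, τ))) (ContinuousLinearMap.inl ℝ V (V × ℝ)) x :=
      hasFDerivAt_prodMk_left x (t, τ)
    exact HasFDerivAt.comp (E := V) (F := V × (V × ℝ)) x h2 h3
  have h3 := hasFDerivAt_comp_sub (W := V →L[ℝ] V →L[ℝ] ℝ) (W' := V →L[ℝ] ℝ) hB
    (ContinuousLinearMap.apply ℝ (V →L[ℝ] ℝ) (-t)) (τ • t) x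
  have h7 : HasFDerivAt (fun x => kInt φ B (x, (t, τ))) (φ t •
      ((ContinuousLinearMap.apply ℝ (V →L[ℝ] ℝ) (-t)).comp (fderiv ℝ B (x - τ • t)))) x :=
    h3.const_smul (φ t)
  have h8 := h1.unique h7
  rw [h8]
  rfl

theorem hint_px (ν : Measure V) [IsLocallyFiniteMeasure ν] (δ : ℝ)
    {φ : V → ℝ} (hφ : ContDiff ℝ ∞ φ) {B : V → V →L[ℝ] V →L[ℝ] ℝ}
    (hB : ContDiff ℝ ∞ B) (x : V) :
    Integrable (fun p => px (kInt φ B) (x, p)) (pmes ν δ) := by
  haveI : ProperSpace V := FiniteDimensional.proper ℝ V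
  have hK := (isCompact_closedBall (0 : V) δ).prod (isCompact_Icc (a := (0 : ℝ)) (b := 1))
  have hpxc : Continuous (px (kInt φ B)) :=
    ((contDiff_fderiv' (contDiff_kInt hφ hB)).continuous).clm_comp continuous_const
  exact integrable_param hK (pmes_compl ν δ) hpxc x

theorem fderiv_kOp (ν : Measure V) [IsLocallyFiniteMeasure ν] (δ : ℝ)
    {φ : V → ℝ} (hφ : ContDiff ℝ ∞ φ) {B : V → V →L[ℝ] V →L[ℝ] ℝ}
    (hB : ContDiff ℝ ∞ B) (x u v : V) : fderiv ℝ (kOp ν δ φ B) x u v =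
      ∫ p, px (kInt φ B) (x, p) u v ∂(pmes ν δ) := by
  haveI : ProperSpace V := FiniteDimensional.proper ℝ V
  have hK := (isCompact_closedBall (0 : V) δ).prod (isCompact_Icc (a := (0 : ℝ)) (b := 1))
  have hf : fderiv ℝ (kOp ν δ φ B) x = ∫ p, px (kInt φ B) (x, p) ∂(pmes ν δ) :=
    (hasFDerivAt_param hK (pmes_compl ν δ)
      ((contDiff_kInt hφ hB).of_le (by exact_mod_cast le_top)) x).fderiv
  rw [hf]
  exact (ContinuousLinearMap.integral_comp_comm (ev2 u v) (hint_px ν δ hφ hB x)).symm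

/-- **homotopy formula** -/
theorem homotopy (ν : Measure V) [IsLocallyFiniteMeasure ν] (δ : ℝ)
    {φ : V → ℝ} (hφ : ContDiff ℝ ∞ φ) {B : V → V →L[ℝ] V →L[ℝ] ℝ}
    (hB : ContDiff ℝ ∞ B) (x : V)
    (hcl : ∀ t ∈ Metric.closedBall (0 : V) δ, ∀ τ ∈ Icc (0 : ℝ) 1, ∀ u v w,
      gTwo B (x - τ • t) u v w = 0) :
    gOne (kOp ν δ φ B) x = avg ν δ φ B x - (∫ t in Metric.closedBall (0 : V) δ, φ t ∂ν) • B x := by
  haveI : ProperSpace V := FiniteDimensional.proper ℝ V
  haveI hfin : IsFiniteMeasure (ν.restrict (Metric.closedBall (0 : V) δ)) :=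
    ⟨by rw [Measure.restrict_apply_univ]; exact (isCompact_closedBall (0 : V) δ).measure_lt_top⟩
  have hintuv : ∀ u v : V, Integrable (fun p => px (kInt φ B) (x, p) u v) (pmes ν δ) :=
    fun u v => (ev2 u v).integrable_comp (hint_px ν δ hφ hB x)
  have hφi : Integrable φ (ν.restrict (Metric.closedBall (0 : V) δ)) :=
    hφ.continuous.continuousOn.integrableOn_compact (isCompact_closedBall _ _)
  ext u v
  show fderiv ℝ (kOp ν δ φ B) x u v - fderiv ℝ (kOp ν δ φ B) x v u =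
    ev2 u v (avg ν δ φ B x) - (∫ t in Metric.closedBall (0 : V) δ, φ t ∂ν) * B x u v
  rw [fderiv_kOp ν δ hφ hB, fderiv_kOp ν δ hφ hB, ← integral_sub (hintuv u v) (hintuv v u)]
  have h1 : ∫ p, (px (kInt φ B) (x, p) u v - px (kInt φ B) (x, p) v u) ∂(pmes ν δ) =
      ∫ t in Metric.closedBall (0 : V) δ, (∫ τ in Icc (0 : ℝ) 1,
        (px (kInt φ B) (x, (t, τ)) u v - px (kInt φ B) (x, (t, τ)) v u)) ∂ν :=
    integral_prod _ ((hintuv u v).sub (hintuv v u))
  rw [h1]
  have h2 : ∫ t in Metric.closedBall (0 : V) δ, (∫ τ in Icc (0 : ℝ) 1,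
        (px (kInt φ B) (x, (t, τ)) u v - px (kInt φ B) (x, (t, τ)) v u)) ∂ν =
      ∫ t in Metric.closedBall (0 : V) δ, (φ t * ev2 u v (B (x - t)) - φ t * ev2 u v (B x)) ∂ν := by
    refine setIntegral_congr_fun Metric.isClosed_closedBall.measurableSet ?_
    intro t ht
    show ∫ τ in Icc (0 : ℝ) 1,
        (px (kInt φ B) (x, (t, τ)) u v - px (kInt φ B) (x, (t, τ)) v u) =
        φ t * ev2 u v (B (x - t)) - φ t * ev2 u v (B x)
    rw [← mul_sub, ← ftc_seg hB (ev2 u v) x t, ← integral_const_mul]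
    refine setIntegral_congr_fun measurableSet_Icc ?_
    intro τ hτ
    show px (kInt φ B) (x, (t, τ)) u v - px (kInt φ B) (x, (t, τ)) v u =
      φ t * (fderiv ℝ B (x - τ • t) (-t) u v)
    rw [px_kInt hφ hB, px_kInt hφ hB]
    have h3 := hcl t ht τ hτ (-t) u v
    unfold gTwo at h3
    rw [← mul_sub]
    congr 1
    linarith
  rw [h2, integral_sub (avg_L_integrable ν δ hφ.continuous hB.continuous (ev2 u v) x)
    (hφi.mul_const _), integral_mul_const,
    avg_apply ν δ hφ.continuous hB.continuous (ev2 u v) x]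
  rfl

end Pool.Agent.W_MP_d8b8b7_h67
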