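import Mathlib
import Pool.Agent.W_MP_d8b8b7_h67.Homot

set_option autoImplicit false
set_option linter.unusedSectionVars false
set_option linter.style.haveILetI false

/-!
# Averages of continuous fields are smooth
-/

namespace Pool.Agent.W_MP_d8b8b7_h67

open MeasureTheory Set Filter Topology
open scoped ContDiff Convolution NNReal

variable {V W : Type} [NormedAddCommGroup V] [NormedSpace ℝ V] [FiniteDimensional ℝ V]
  [MeasurableSpace V] [BorelSpace V] [NormedAddCommGroup W] [NormedSpace ℝ W]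

theorem avg_eq_conv (ν : Measure V) (δ : ℝ) {φ : V → ℝ}
    (hsupp : ∀ t, t ∉ Metric.closedBall (0 : V) δ → φ t = 0) (g : V → W) (x : V) :
    avg ν δ φ g x = (φ ⋆[ContinuousLinearMap.lsmul ℝ ℝ, ν] g) x := by
  rw [convolution_lsmul]
  unfold avg
  apply setIntegral_eq_integral_of_forall_compl_eq_zero
  intro t ht
  rw [hsupp t ht, zero_smul]

theorem hasCompactSupport_phi {δ : ℝ} {φ : V → ℝ}
    (hsupp : ∀ t, t ∉ Metric.closedBall (0 : V) δ → φ t = 0) : HasCompactSupport φ := by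
  haveI : ProperSpace V := FiniteDimensional.proper ℝ V
  exact HasCompactSupport.intro (isCompact_closedBall (0 : V) δ) hsupp

theorem contDiff_avg (ν : Measure V) [ν.IsAddHaarMeasure] (δ : ℝ) {φ : V → ℝ}
    (hφ : ContDiff ℝ ∞ φ) (hsupp : ∀ t, t ∉ Metric.closedBall (0 : V) δ → φ t = 0)
    {g : V → W} (hg : Continuous g) : ContDiff ℝ ∞ (avg ν δ φ g) := by
  have h1 : avg ν δ φ g = (φ ⋆[ContinuousLinearMap.lsmul ℝ ℝ, ν] g) :=
    funext fun x => avg_eq_conv ν δ hsupp g x
  rw [h1]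
  haveI : ProperSpace V := FiniteDimensional.proper ℝ V
  exact (hasCompactSupport_phi hsupp).contDiff_convolution_left (n := ⊤) _ hφ
    hg.locallyIntegrable

theorem avg_eq_swap (ν : Measure V) [ν.IsAddHaarMeasure] (δ : ℝ) {φ : V → ℝ}
    (hsupp : ∀ t, t ∉ Metric.closedBall (0 : V) δ → φ t = 0) (g : V → W) (x : V) :
    avg ν δ φ g x = ∫ t, φ (x - t) • g t ∂ν := by
  rw [avg_eq_conv ν δ hsupp, convolution_lsmul_swap]

theorem integrable_swap (ν : Measure V) [ν.IsAddHaarMeasure] {φ : V → ℝ} (hφ : Continuous φ)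
    {g : V → W} (hg : Continuous g) (hgc : HasCompactSupport g) (x : V) :
    Integrable (fun t => φ (x - t) • g t) ν := by
  have h1 : Continuous (fun t => φ (x - t) • g t) := (hφ.comp (by fun_prop)).smul hg
  exact h1.integrable_of_hasCompactSupport (hgc.smul_left)

theorem avg_lipschitz (ν : Measure V) [ν.IsAddHaarMeasure] (δ : ℝ) {φ : V → ℝ}
    (hφ : Continuous φ) (hsupp : ∀ t, t ∉ Metric.closedBall (0 : V) δ → φ t = 0)
    {C : ℝ≥0} (hC : LipschitzWith C φ)
    {g : V → W} (hg : Continuous g) (hgc : HasCompactSupport g) {M : ℝ} (hM : 0 ≤ M)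
    (hgM : ∫ t, ‖g t‖ ∂ν ≤ M) :
    LipschitzWith (C * M.toNNReal) (avg ν δ φ g) := by
  apply LipschitzWith.of_dist_le_mul
  intro x x'
  rw [dist_eq_norm, avg_eq_swap ν δ hsupp, avg_eq_swap ν δ hsupp,
    ← integral_sub (integrable_swap ν hφ hg hgc x) (integrable_swap ν hφ hg hgc x')]
  have hgi : Integrable (fun t => ‖g t‖) ν := (hg.integrable_of_hasCompactSupport hgc).norm
  have h1 : ‖∫ t, (φ (x - t) • g t - φ (x' - t) • g t) ∂ν‖ ≤
      ∫ t, (C * dist x x') * ‖g t‖ ∂ν := by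
    apply norm_integral_le_of_norm_le (hgi.const_mul _)
    refine Eventually.of_forall fun t => ?_
    rw [← sub_smul, norm_smul]
    have h2 := hC.dist_le_mul (x - t) (x' - t)
    rw [dist_eq_norm, dist_sub_right] at h2
    exact mul_le_mul_of_nonneg_right h2 (norm_nonneg _)
  refine h1.trans ?_
  rw [integral_const_mul]
  have h3 : ((C * M.toNNReal : ℝ≥0) : ℝ) * dist x x' = (C * dist x x') * M := by
    push_cast
    rw [Real.coe_toNNReal M hM]
    ring
  rw [h3]
  exact mul_le_mul_of_nonneg_left hgM (by positivity)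

theorem norm_avg_le (ν : Measure V) [ν.IsAddHaarMeasure] (δ : ℝ) {φ : V → ℝ}
    (hsupp : ∀ t, t ∉ Metric.closedBall (0 : V) δ → φ t = 0)
    {C : ℝ} (hC : ∀ t, ‖φ t‖ ≤ C) {g : V → W} (hg : Continuous g) (hgc : HasCompactSupport g)
    (x : V) : ‖avg ν δ φ g x‖ ≤ C * ∫ t, ‖g t‖ ∂ν := by
  rw [avg_eq_swap ν δ hsupp, ← integral_const_mul]
  have hgi : Integrable (fun t => ‖g t‖) ν := (hg.integrable_of_hasCompactSupport hgc).norm
  apply norm_integral_le_of_norm_le (hgi.const_mul _)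
  refine Eventually.of_forall fun t => ?_
  rw [norm_smul]
  exact mul_le_mul_of_nonneg_right (hC _) (norm_nonneg _)

end Pool.Agent.W_MP_d8b8b7_h67
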