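import Mathlib
import Pool.Agent.W_MP_d8b8b7_h67.Conv

set_option autoImplicit false
set_option linter.unusedSectionVars false
set_option linter.style.haveILetI false

/-!
# The smoothing operator on continuous fields over a compact set is compact
-/

namespace Pool.Agent.W_MP_d8b8b7_h67

open MeasureTheory Set Filter Topology BoundedContinuousFunction
open scoped ContDiff NNReal

variable {V W : Type} [NormedAddCommGroup V] [NormedSpace ℝ V] [FiniteDimensional ℝ V]
  [MeasurableSpace V] [BorelSpace V] [NormedAddCommGroup W] [NormedSpace ℝ W]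

/-- data of a cut-off retraction -/
structure Dat (X U : Set V) (ρ : V → V) (P : V → W →L[ℝ] W) (χ : V → ℝ) : Prop where
  cpt : IsCompact X
  opn : IsOpen U
  cont_ρ : Continuous ρ
  mem : ∀ y ∈ U, ρ y ∈ X
  cont_P : Continuous P
  cont_χ : Continuous χ
  cs : HasCompactSupport χ
  ts : tsupport χ ⊆ U

open Classical in
/-- cut-off extension of a field on `X` -/
noncomputable def gfun {X : Set V} (ρ : V → V) (P : V → W →L[ℝ] W) (χ : V → ℝ)
    (h : ↥X →ᵇ W) (y : V) : W :=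
  if hy : ρ y ∈ X then χ y • P y (h ⟨ρ y, hy⟩) else 0

/-- weight -/
noncomputable def kfun (P : V → W →L[ℝ] W) (χ : V → ℝ) (y : V) : ℝ := ‖χ y‖ * ‖P y‖

variable {X U : Set V} {ρ : V → V} {P : V → W →L[ℝ] W} {χ : V → ℝ}

theorem gfun_of_mem (h : ↥X →ᵇ W) {y : V} (hy : ρ y ∈ X) :
    gfun ρ P χ h y = χ y • P y (h ⟨ρ y, hy⟩) := dif_pos hy

theorem gfun_eq_zero (h : ↥X →ᵇ W) {y : V} (hy : χ y = 0) : gfun ρ P χ h y = 0 := by
  unfold gfun
  split_ifs
  · rw [hy, zero_smul]
  · rfl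

theorem gfun_support (h : ↥X →ᵇ W) : Function.support (gfun ρ P χ h) ⊆ Function.support χ := by
  intro y hy hy'
  exact hy (gfun_eq_zero h hy')

theorem gfun_continuous (H : Dat X U ρ P χ) (h : ↥X →ᵇ W) : Continuous (gfun ρ P χ h) := by
  apply continuous_of_tsupport
  intro x hx
  have hxU : x ∈ U := H.ts (closure_mono (gfun_support h) hx)
  have h1 : ContinuousOn (gfun ρ P χ h) U := by
    rw [continuousOn_iff_continuous_restrict]
    have h2 : (fun y : U => gfun ρ P χ h y) =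
        fun y : U => χ y • P y (h ⟨ρ y, H.mem y y.2⟩) := by
      funext y
      exact gfun_of_mem h (H.mem y y.2)
    show Continuous (fun y : U => gfun ρ P χ h y)
    rw [h2]
    have h3 : Continuous fun y : U => (⟨ρ y, H.mem y y.2⟩ : ↥X) :=
      (H.cont_ρ.comp continuous_subtype_val).subtype_mk _
    exact (H.cont_χ.comp continuous_subtype_val).smul
      ((H.cont_P.comp continuous_subtype_val).clm_apply (h.continuous.comp h3))
  exact h1.continuousAt (H.opn.mem_nhds hxU)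

theorem gfun_compact (H : Dat X U ρ P χ) (h : ↥X →ᵇ W) : HasCompactSupport (gfun ρ P χ h) :=
  H.cs.mono (gfun_support h)

theorem kfun_continuous (H : Dat X U ρ P χ) : Continuous (kfun P χ) :=
  H.cont_χ.norm.mul H.cont_P.norm

theorem kfun_compact (H : Dat X U ρ P χ) : HasCompactSupport (kfun P χ) :=
  H.cs.norm.mul_right

theorem norm_gfun_le (h : ↥X →ᵇ W) (y : V) : ‖gfun ρ P χ h y‖ ≤ kfun P χ y * ‖h‖ := by
  unfold gfun kfun
  split_ifs with hy
  · rw [norm_smul, mul_assoc]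
    refine mul_le_mul_of_nonneg_left ?_ (norm_nonneg _)
    exact ((P y).le_opNorm _).trans (mul_le_mul_of_nonneg_left (h.norm_coe_le_norm _)
      (norm_nonneg _))
  · rw [norm_zero]
    positivity

theorem gfun_add (h h' : ↥X →ᵇ W) (y : V) :
    gfun ρ P χ (h + h') y = gfun ρ P χ h y + gfun ρ P χ h' y := by
  unfold gfun
  split_ifs with hy
  · simp
  · simp

theorem gfun_smul (c : ℝ) (h : ↥X →ᵇ W) (y : V) :
    gfun ρ P χ (c • h) y = c • gfun ρ P χ h y := by
  unfold gfun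
  split_ifs with hy
  · simp only [BoundedContinuousFunction.coe_smul, map_smul]
    exact smul_comm _ _ _
  · simp

theorem integral_gfun_le (ν : Measure V) [ν.IsAddHaarMeasure] (H : Dat X U ρ P χ) (h : ↥X →ᵇ W) :
    ∫ y, ‖gfun ρ P χ h y‖ ∂ν ≤ (∫ y, kfun P χ y ∂ν) * ‖h‖ := by
  rw [← integral_mul_const]
  apply integral_mono
  · exact ((gfun_continuous H h).integrable_of_hasCompactSupport (gfun_compact H h)).norm
  · exact ((kfun_continuous H).integrable_of_hasCompactSupport (kfun_compact H)).mul_const _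
  · intro y
    exact norm_gfun_le h y

theorem integral_kfun_nonneg (ν : Measure V) : 0 ≤ ∫ y, kfun P χ y ∂ν :=
  integral_nonneg fun y => mul_nonneg (norm_nonneg _) (norm_nonneg _)

variable (ν : Measure V) [ν.IsAddHaarMeasure] (δ : ℝ) {φ : V → ℝ}

/-- smoothing of a field on `X` -/
noncomputable def sm (φ : V → ℝ) (ρ : V → V) (P : V → W →L[ℝ] W) (χ : V → ℝ)
    (h : ↥X →ᵇ W) : V → W := avg ν δ φ (gfun ρ P χ h)

theorem contDiff_sm (H : Dat X U ρ P χ) (hφ : ContDiff ℝ ∞ φ)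
    (hsupp : ∀ t, t ∉ Metric.closedBall (0 : V) δ → φ t = 0) (h : ↥X →ᵇ W) :
    ContDiff ℝ ∞ (sm ν δ φ ρ P χ h) := contDiff_avg ν δ hφ hsupp (gfun_continuous H h)

theorem sm_add (H : Dat X U ρ P χ) (hφ : Continuous φ) (h h' : ↥X →ᵇ W) (x : V) :
    sm ν δ φ ρ P χ (h + h') x = sm ν δ φ ρ P χ h x + sm ν δ φ ρ P χ h' x := by
  unfold sm avg
  rw [← integral_add (avg_integrable ν δ hφ (gfun_continuous H h) x)
    (avg_integrable ν δ hφ (gfun_continuous H h') x)]
  congr 1
  funext t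
  rw [gfun_add, smul_add]

theorem sm_smul (c : ℝ) (h : ↥X →ᵇ W) (x : V) :
    sm ν δ φ ρ P χ (c • h) x = c • sm ν δ φ ρ P χ h x := by
  unfold sm avg
  rw [← integral_smul]
  congr 1
  funext t
  rw [gfun_smul, smul_comm]

theorem sm_lipschitz (H : Dat X U ρ P χ) (hφ : Continuous φ)
    (hsupp : ∀ t, t ∉ Metric.closedBall (0 : V) δ → φ t = 0)
    {C : ℝ≥0} (hC : LipschitzWith C φ) (h : ↥X →ᵇ W) :
    LipschitzWith (C * ((∫ y, kfun P χ y ∂ν) * ‖h‖).toNNReal) (sm ν δ φ ρ P χ h) :=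
  avg_lipschitz ν δ hφ hsupp hC (gfun_continuous H h) (gfun_compact H h)
    (mul_nonneg (integral_kfun_nonneg ν) (norm_nonneg _)) (integral_gfun_le ν H h)

theorem norm_sm_le (H : Dat X U ρ P χ)
    (hsupp : ∀ t, t ∉ Metric.closedBall (0 : V) δ → φ t = 0)
    {C : ℝ} (hC : ∀ t, ‖φ t‖ ≤ C) (h : ↥X →ᵇ W) (x : V) :
    ‖sm ν δ φ ρ P χ h x‖ ≤ C * (∫ y, kfun P χ y ∂ν) * ‖h‖ := by
  have hC0 : 0 ≤ C := (norm_nonneg _).trans (hC 0)
  have h1 := norm_avg_le ν δ hsupp hC (gfun_continuous H h) (gfun_compact H h) x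
  rw [mul_assoc]
  exact h1.trans (mul_le_mul_of_nonneg_left (integral_gfun_le ν H h) hC0)

/-- bundled hypotheses on the kernel -/
structure Ker (δ : ℝ) (φ : V → ℝ) : Prop where
  smooth : ContDiff ℝ ∞ φ
  supp : ∀ t, t ∉ Metric.closedBall (0 : V) δ → φ t = 0

theorem Ker.exists_bound {δ : ℝ} {φ : V → ℝ} (K : Ker δ φ) : ∃ C : ℝ, ∀ t, ‖φ t‖ ≤ C := by
  obtain ⟨C, hC⟩ := K.smooth.continuous.bounded_above_of_compact_support
    (hasCompactSupport_phi K.supp)
  exact ⟨C, hC⟩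

theorem Ker.exists_lip {δ : ℝ} {φ : V → ℝ} (K : Ker δ φ) : ∃ C : ℝ≥0, LipschitzWith C φ :=
  ContDiff.lipschitzWith_of_hasCompactSupport (hasCompactSupport_phi K.supp) K.smooth (by simp)

/-- the smoothing operator on `C(X, W)` -/
noncomputable def smOp (H : Dat X U ρ P χ) (K : Ker δ φ) : (↥X →ᵇ W) →L[ℝ] (↥X →ᵇ W) :=
  haveI : CompactSpace ↥X := isCompact_iff_compactSpace.mp H.cpt
  LinearMap.mkContinuous
    { toFun := fun h => mkOfCompact ⟨fun x => sm ν δ φ ρ P χ h x,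
        (contDiff_sm ν δ H K.smooth K.supp h).continuous.comp continuous_subtype_val⟩
      map_add' := fun h h' => by
        ext x
        exact sm_add ν δ H K.smooth.continuous h h' x
      map_smul' := fun c h => by
        ext x
        exact sm_smul ν δ c h x }
    (K.exists_bound.choose * (∫ y, kfun P χ y ∂ν))
    (fun h => by
      have h0 : 0 ≤ K.exists_bound.choose * (∫ y, kfun P χ y ∂ν) * ‖h‖ :=
        mul_nonneg (mul_nonneg ((norm_nonneg _).trans (K.exists_bound.choose_spec 0))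
          (integral_kfun_nonneg ν)) (norm_nonneg _)
      rw [BoundedContinuousFunction.norm_le h0]
      intro x
      exact norm_sm_le ν δ H K.supp K.exists_bound.choose_spec h x)

theorem smOp_apply (H : Dat X U ρ P χ) (K : Ker δ φ) (h : ↥X →ᵇ W) (x : ↥X) :
    smOp ν δ H K h x = sm ν δ φ ρ P χ h x := rfl

theorem smOp_compact [FiniteDimensional ℝ W] (H : Dat X U ρ P χ) (K : Ker δ φ) :
    IsCompactOperator (smOp ν δ H K) := by
  haveI : CompactSpace ↥X := isCompact_iff_compactSpace.mp H.cpt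
  haveI : ProperSpace W := FiniteDimensional.proper ℝ W
  obtain ⟨C, hC⟩ := K.exists_bound
  obtain ⟨L, hL⟩ := K.exists_lip
  refine (isCompactOperator_iff_isCompact_closure_image_closedBall
    ((smOp ν δ H K : (↥X →ᵇ W) →L[ℝ] (↥X →ᵇ W)) : (↥X →ᵇ W) →ₗ[ℝ] (↥X →ᵇ W)) zero_lt_one).mpr ?_
  set M : ℝ := ∫ y, kfun P χ y ∂ν with hM
  have hM0 : 0 ≤ M := integral_kfun_nonneg ν
  refine arzela_ascoli (Metric.closedBall 0 (C * M)) (isCompact_closedBall _ _) _ ?_ ?_
  · rintro f x ⟨h, hh, rfl⟩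
    rw [mem_closedBall_zero_iff] at hh ⊢
    have h1 := norm_sm_le ν δ H K.supp hC h x
    have hC0 : 0 ≤ C := (norm_nonneg _).trans (hC 0)
    refine h1.trans ?_
    calc C * M * ‖h‖ ≤ C * M * 1 := mul_le_mul_of_nonneg_left hh (mul_nonneg hC0 hM0)
      _ = C * M := mul_one _
  · refine Metric.equicontinuous_of_continuity_modulus (fun r => (L * M.toNNReal : ℝ≥0) * r) ?_ _ ?_
    · have : Tendsto (fun r : ℝ => ((L * M.toNNReal : ℝ≥0) : ℝ) * r) (𝓝 0)
          (𝓝 (((L * M.toNNReal : ℝ≥0) : ℝ) * 0)) := (continuous_const.mul continuous_id).tendsto 0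
      rwa [mul_zero] at this
    · rintro x y ⟨f, h, hh, rfl⟩
      rw [mem_closedBall_zero_iff] at hh
      have h1 := (sm_lipschitz ν δ H K.smooth.continuous K.supp hL h).dist_le_mul x y
      refine h1.trans ?_
      have h2 : L * (M * ‖h‖).toNNReal ≤ L * M.toNNReal := by
        refine mul_le_mul_right ?_ L
        apply Real.toNNReal_le_toNNReal
        calc M * ‖h‖ ≤ M * 1 := mul_le_mul_of_nonneg_left hh hM0
          _ = M := mul_one _
      exact mul_le_mul_of_nonneg_right (NNReal.coe_le_coe.mpr h2) dist_nonneg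

theorem exists_bound_P (H : Dat X U ρ P χ) : ∃ C : ℝ, 0 ≤ C ∧ ∀ x ∈ X, ‖P x‖ ≤ C := by
  obtain ⟨C, hC⟩ := H.cpt.exists_bound_of_continuousOn H.cont_P.continuousOn
  exact ⟨max C 0, le_max_right _ _, fun x hx => (hC x hx).trans (le_max_left _ _)⟩

/-- pointwise application of `P` -/
noncomputable def psiOp (H : Dat X U ρ P χ) : (↥X →ᵇ W) →L[ℝ] (↥X →ᵇ W) :=
  haveI : CompactSpace ↥X := isCompact_iff_compactSpace.mp H.cpt
  LinearMap.mkContinuous
    { toFun := fun h => mkOfCompact ⟨fun x => P x (h x),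
        (H.cont_P.comp continuous_subtype_val).clm_apply h.continuous⟩
      map_add' := fun h h' => by
        ext x
        exact map_add (P x) (h x) (h' x)
      map_smul' := fun c h => by
        ext x
        exact map_smul (P x) c (h x) }
    (exists_bound_P H).choose
    (fun h => by
      have h1 := (exists_bound_P H).choose_spec
      rw [BoundedContinuousFunction.norm_le (mul_nonneg h1.1 (norm_nonneg _))]
      intro x
      exact ((P x).le_opNorm _).trans (mul_le_mul (h1.2 x x.2) (h.norm_coe_le_norm x)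
        (norm_nonneg _) h1.1))

theorem psiOp_apply (H : Dat X U ρ P χ) (h : ↥X →ᵇ W) (x : ↥X) :
    psiOp H h x = P x (h x) := rfl

/-- the derivative of the smoothing depends continuously on the field -/
theorem norm_fderiv_sm_le (H : Dat X U ρ P χ) (K : Ker δ φ)
    {C : ℝ≥0} (hC : LipschitzWith C φ) (h : ↥X →ᵇ W) (x : V) :
    ‖fderiv ℝ (sm ν δ φ ρ P χ h) x‖ ≤ C * (∫ y, kfun P χ y ∂ν) * ‖h‖ := by
  have h1 := norm_fderiv_le_of_lipschitz ℝ (x₀ := x)
    (sm_lipschitz ν δ H K.smooth.continuous K.supp hC h)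
  refine h1.trans (le_of_eq ?_)
  rw [NNReal.coe_mul, Real.coe_toNNReal _ (mul_nonneg (integral_kfun_nonneg ν) (norm_nonneg _)),
    mul_assoc]

theorem fderiv_sm_sub (H : Dat X U ρ P χ) (K : Ker δ φ) (h h' : ↥X →ᵇ W) (x : V) :
    fderiv ℝ (sm ν δ φ ρ P χ (h - h')) x =
      fderiv ℝ (sm ν δ φ ρ P χ h) x - fderiv ℝ (sm ν δ φ ρ P χ h') x := by
  have h1 : sm ν δ φ ρ P χ (h - h') = fun x => sm ν δ φ ρ P χ h x - sm ν δ φ ρ P χ h' x := by
    funext x
    have h2 := sm_add ν δ H K.smooth.continuous (h - h') h' x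
    rw [sub_add_cancel] at h2
    rw [h2, add_sub_cancel_right]
  rw [h1]
  exact fderiv_fun_sub ((contDiff_sm ν δ H K.smooth K.supp h).differentiable (by simp) x)
    ((contDiff_sm ν δ H K.smooth K.supp h').differentiable (by simp) x)

theorem tendsto_fderiv_sm (H : Dat X U ρ P χ) (K : Ker δ φ) {u : ℕ → (↥X →ᵇ W)} {h : ↥X →ᵇ W}
    (hu : Tendsto u atTop (𝓝 h)) (x : V) :
    Tendsto (fun n => fderiv ℝ (sm ν δ φ ρ P χ (u n)) x) atTop
      (𝓝 (fderiv ℝ (sm ν δ φ ρ P χ h) x)) := by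
  obtain ⟨C, hC⟩ := K.exists_lip
  rw [tendsto_iff_norm_sub_tendsto_zero] at hu ⊢
  have h1 : Tendsto (fun n => C * (∫ y, kfun P χ y ∂ν) * ‖u n - h‖) atTop (𝓝 0) := by
    have := hu.const_mul (C * (∫ y, kfun P χ y ∂ν))
    rwa [mul_zero] at this
  refine squeeze_zero (fun n => norm_nonneg _) (fun n => ?_) h1
  rw [← fderiv_sm_sub ν δ H K]
  exact norm_fderiv_sm_le ν δ H K hC _ x

end Pool.Agent.W_MP_d8b8b7_h67
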