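import Mathlib
import Pool.Agent.W_MP_d8b8b7_h67.Op

set_option autoImplicit false
set_option linter.unusedSectionVars false
set_option linter.style.haveILetI false

/-!
# Linearity of the exterior derivative, `d d = 0`, pull back as a continuous linear map
-/

namespace Pool.Agent.W_MP_d8b8b7_h67

open Filter Topology
open scoped ContDiff

variable {V : Type} [NormedAddCommGroup V] [NormedSpace ℝ V]

theorem gTwo_add {β γ : V → V →L[ℝ] V →L[ℝ] ℝ} (hβ : ContDiff ℝ ∞ β) (hγ : ContDiff ℝ ∞ γ)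
    (x u v w : V) : gTwo (fun x => β x + γ x) x u v w = gTwo β x u v w + gTwo γ x u v w := by
  have h : fderiv ℝ (fun x => β x + γ x) x = fderiv ℝ β x + fderiv ℝ γ x :=
    fderiv_fun_add (hβ.differentiable (by simp) x) (hγ.differentiable (by simp) x)
  unfold gTwo
  rw [h]
  simp only [add_apply]
  ring

theorem gTwo_smul {β : V → V →L[ℝ] V →L[ℝ] ℝ} (hβ : ContDiff ℝ ∞ β) (c : ℝ)
    (x u v w : V) : gTwo (fun x => c • β x) x u v w = c * gTwo β x u v w := by
  have h : fderiv ℝ (fun x => c • β x) x = c • fderiv ℝ β x :=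
    fderiv_fun_const_smul (hβ.differentiable (by simp) x) c
  unfold gTwo
  rw [h]
  show c * fderiv ℝ β x u v w - c * fderiv ℝ β x v u w + c * fderiv ℝ β x w u v = _
  ring

theorem gOne_add {α α' : V → V →L[ℝ] ℝ} (hα : ContDiff ℝ ∞ α) (hα' : ContDiff ℝ ∞ α') (x : V) :
    gOne (fun x => α x + α' x) x = gOne α x + gOne α' x := by
  have h : fderiv ℝ (fun x => α x + α' x) x = fderiv ℝ α x + fderiv ℝ α' x :=
    fderiv_fun_add (hα.differentiable (by simp) x) (hα'.differentiable (by simp) x)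
  unfold gOne
  rw [h]
  ext u v
  show (fderiv ℝ α x u v + fderiv ℝ α' x u v) - (fderiv ℝ α x v u + fderiv ℝ α' x v u) =
    (fderiv ℝ α x u v - fderiv ℝ α x v u) + (fderiv ℝ α' x u v - fderiv ℝ α' x v u)
  ring

theorem gOne_smul {α : V → V →L[ℝ] ℝ} (hα : ContDiff ℝ ∞ α) (c : ℝ) (x : V) :
    gOne (fun x => c • α x) x = c • gOne α x := by
  have h : fderiv ℝ (fun x => c • α x) x = c • fderiv ℝ α x :=
    fderiv_fun_const_smul (hα.differentiable (by simp) x) c
  unfold gOne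
  rw [h]
  ext u v
  show c * fderiv ℝ α x u v - c * fderiv ℝ α x v u = c * (fderiv ℝ α x u v - fderiv ℝ α x v u)
  ring

theorem gOne_neg {α : V → V →L[ℝ] ℝ} (hα : ContDiff ℝ ∞ α) (x : V) :
    gOne (fun x => - α x) x = - gOne α x := by
  have h := gOne_smul hα (-1) x
  have h2 : (fun x => (-1 : ℝ) • α x) = fun x => - α x := by
    funext x
    exact neg_one_smul ℝ (α x)
  rw [h2] at h
  rw [h]
  exact neg_one_smul ℝ (gOne α x)

theorem gTwo_zero (x u v w : V) : gTwo (fun _ => (0 : V →L[ℝ] V →L[ℝ] ℝ)) x u v w = 0 := by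
  have h1 : fderiv ℝ (fun _ : V => (0 : V →L[ℝ] V →L[ℝ] ℝ)) x = 0 :=
    (hasFDerivAt_const _ x).fderiv
  unfold gTwo
  rw [h1]
  simp

theorem gOne_zero (x : V) : gOne (fun _ => (0 : V →L[ℝ] ℝ)) x = 0 := by
  have h1 : fderiv ℝ (fun _ : V => (0 : V →L[ℝ] ℝ)) x = 0 :=
    (hasFDerivAt_const _ x).fderiv
  unfold gOne
  rw [h1]
  ext u v
  simp

theorem contDiff_smul2 {β : V → V →L[ℝ] V →L[ℝ] ℝ} (hβ : ContDiff ℝ ∞ β) (c : ℝ) :
    ContDiff ℝ ∞ (fun x => c • β x) := hβ.const_smul c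

theorem contDiff_smul1 {β : V → V →L[ℝ] ℝ} (hβ : ContDiff ℝ ∞ β) (c : ℝ) :
    ContDiff ℝ ∞ (fun x => c • β x) := hβ.const_smul c

/-- `d d = 0` -/
theorem gTwo_gOne {α : V → V →L[ℝ] ℝ} (hα : ContDiff ℝ ∞ α) (x u v w : V) :
    gTwo (gOne α) x u v w = 0 := by
  have hd : HasFDerivAt (fderiv ℝ α) (fderiv ℝ (fderiv ℝ α) x) x :=
    ((contDiff_fderiv' hα).differentiable (by simp) x).hasFDerivAt
  have hG : HasFDerivAt (gOne α) (fderiv ℝ (gOne α) x) x :=
    ((contDiff_gOne hα).differentiable (by simp) x).hasFDerivAt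
  have hs : ∀ a b c : V, fderiv ℝ (fderiv ℝ α) x a b c = fderiv ℝ (fderiv ℝ α) x b a c := by
    intro a b c
    have h1 : fderiv ℝ (fderiv ℝ α) x a b = fderiv ℝ (fderiv ℝ α) x b a := by
      refine (hα.contDiffAt.isSymmSndFDerivAt ?_).eq a b
      rw [minSmoothness_of_isRCLikeNormedField]
      exact ENat.LEInfty.out
    rw [h1]
  have key : ∀ a b c : V, fderiv ℝ (gOne α) x a b c =
      fderiv ℝ (fderiv ℝ α) x a b c - fderiv ℝ (fderiv ℝ α) x a c b := by
    intro a b c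
    have h1 := (hG.clm_apply (hasFDerivAt_const b x)).clm_apply (hasFDerivAt_const c x)
    have h2 := (hd.clm_apply (hasFDerivAt_const b x)).clm_apply (hasFDerivAt_const c x)
    have h3 := (hd.clm_apply (hasFDerivAt_const c x)).clm_apply (hasFDerivAt_const b x)
    have h4 := h1.unique (h2.sub h3)
    have h5 := congrArg (fun L => L a) h4
    simpa using h5
  unfold gTwo
  rw [key, key, key, hs v u w, hs w u v, hs w v u]
  ring

theorem gTwo_eq_zero_of {β κ : V → V →L[ℝ] V →L[ℝ] ℝ} {k : V → V →L[ℝ] ℝ} {x : V}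
    (hk : ContDiff ℝ ∞ k) (hκ : ContDiff ℝ ∞ κ) (h : β =ᶠ[𝓝 x] fun x => gOne k x + κ x)
    (u v w : V) (h0 : gTwo κ x u v w = 0) : gTwo β x u v w = 0 := by
  have h4 : gTwo β x u v w = gTwo (fun x => gOne k x + κ x) x u v w := by
    unfold gTwo
    rw [h.fderiv_eq]
  rw [h4, gTwo_add (contDiff_gOne hk) hκ, gTwo_gOne hk, h0, add_zero]

variable [FiniteDimensional ℝ V]

/-- bilinear forms, with opaque instances -/
def BW (V : Type) [NormedAddCommGroup V] [NormedSpace ℝ V] : Type := V →L[ℝ] V →L[ℝ] ℝ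

noncomputable instance : NormedAddCommGroup (BW V) :=
  inferInstanceAs (NormedAddCommGroup (V →L[ℝ] V →L[ℝ] ℝ))

noncomputable instance : NormedSpace ℝ (BW V) :=
  inferInstanceAs (NormedSpace ℝ (V →L[ℝ] V →L[ℝ] ℝ))

instance : FiniteDimensional ℝ (BW V) :=
  inferInstanceAs (FiniteDimensional ℝ (V →L[ℝ] V →L[ℝ] ℝ))

/-- pull back of bilinear forms as a linear map -/
noncomputable def pullL (A : V →L[ℝ] V) : BW V →ₗ[ℝ] BW V where
  toFun b := pull A b
  map_add' _ _ := rfl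
  map_smul' _ _ := rfl

/-- pull back of bilinear forms as a continuous linear map -/
noncomputable def pullC (A : V →L[ℝ] V) : BW V →L[ℝ] BW V :=
  LinearMap.toContinuousLinearMap (pullL A)

theorem pullC_apply (A : V →L[ℝ] V) (b : BW V) : pullC A b = pull A b := rfl

theorem continuous_pullC {A : V → (V →L[ℝ] V)} (hA : ContDiff ℝ ∞ A) :
    Continuous (fun y => pullC (A y)) := by
  rw [continuous_clm_apply]
  intro b
  have h := (contDiff_pull (V := V) (P := V) hA (contDiff_const (c := b))).continuous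
  exact h

/-- evaluation -/
noncomputable def evB (u v : V) : BW V →L[ℝ] ℝ := ev2 u v

end Pool.Agent.W_MP_d8b8b7_h67
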