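import Mathlib
import Pool.Agent.W_MP_d8b8b7_h67.Lin
import Pool.Agent.W_MP_d8b8b7_h67.Abs
import Pool.Agent.W_MP_d8b8b7_gt.Setup

set_option autoImplicit false
set_option linter.unusedSectionVars false
set_option linter.style.haveILetI false

/-!
# The concrete smoothing operator of a Setup
-/

namespace Pool.Agent.W_MP_d8b8b7_h67

open Pool.Agent.W_MP_d8b8b7_gt
open MeasureTheory Set Filter Topology BoundedContinuousFunction
open scoped ContDiff NNReal

variable {N : ℕ} (S : Setup N)

/-- the derivative of the retraction is idempotent -/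
theorem D_D {y : EN N} (hy : y ∈ S.U) (v : EN N) :
    fderiv ℝ S.rho (S.rho y) (fderiv ℝ S.rho y v) = fderiv ℝ S.rho y v := by
  have h1 : HasFDerivAt S.rho (fderiv ℝ S.rho y) y :=
    (S.smooth_rho.differentiable (by simp) y).hasFDerivAt
  have h2 : HasFDerivAt S.rho (fderiv ℝ S.rho (S.rho y)) (S.rho y) :=
    (S.smooth_rho.differentiable (by simp) (S.rho y)).hasFDerivAt
  have h3 := h2.comp y h1
  have h4 : (S.rho ∘ S.rho) =ᶠ[𝓝 y] S.rho := by
    filter_upwards [S.openU.mem_nhds hy] with z hz
    exact S.rho_fix _ (S.rho_mem z hz)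
  have h5 := (h3.congr_of_eventuallyEq h4.symm).unique h1
  exact congrArg (fun L => L v) h5

theorem pull_pull {y : EN N} (hy : y ∈ S.U) (b : Bil N) :
    pull (fderiv ℝ S.rho y) (pull (fderiv ℝ S.rho (S.rho y)) b) = pull (fderiv ℝ S.rho y) b := by
  ext u v
  show b (fderiv ℝ S.rho (S.rho y) (fderiv ℝ S.rho y u))
    (fderiv ℝ S.rho (S.rho y) (fderiv ℝ S.rho y v)) =
    b (fderiv ℝ S.rho y u) (fderiv ℝ S.rho y v)
  rw [D_D S hy, D_D S hy]

/-- pull back of a closed form by the retraction is closed on `U` -/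
theorem closed_pb {β : EN N → Bil N} (hβ : IsForm β) (hc : S.Closed β) {y : EN N} (hy : y ∈ S.U)
    (u v w : EN N) : gTwo (pb S.rho β) y u v w = 0 := by
  rw [gTwo_pb S.smooth_rho hβ.smooth hβ.alt]
  exact hc _ (S.rho_mem y hy) _ _ _ (D_D S hy u) (D_D S hy v) (D_D S hy w)

/-- the closed tube of radius `3/4 d0` is contained in `U` -/
theorem mem_U_of_infDist {y : EN N} (hy : Metric.infDist y S.X ≤ S.d0) : y ∈ S.U := by
  obtain ⟨x, hx, hxy⟩ := S.cptX.exists_infDist_eq_dist S.neX y
  rw [hxy, dist_eq_norm] at hy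
  have h := S.tube x hx (y - x) hy
  rwa [add_sub_cancel] at h

/-- a cut-off function -/
theorem exists_chi : ∃ χ : EN N → ℝ, Continuous χ ∧ HasCompactSupport χ ∧ tsupport χ ⊆ S.U ∧
    ∀ y, Metric.infDist y S.X ≤ S.d0 / 2 → χ y = 1 := by
  have hd := S.d0_pos
  set s : Set (EN N) := Metric.cthickening (S.d0 / 2) S.X with hs
  set t : Set (EN N) := Metric.cthickening (3 * S.d0 / 4) S.X with ht
  have hst : s ⊆ interior t := by
    have h1 : s ⊆ Metric.thickening (3 * S.d0 / 4) S.X :=
      Metric.cthickening_subset_thickening' (by positivity) (by linarith) _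
    exact h1.trans (Metric.thickening_subset_interior_cthickening _ _)
  obtain ⟨f, hf1, hf0, -⟩ := exists_contMDiffMap_one_nhds_of_subset_interior (n := ⊤)
    (modelWithCornersSelf ℝ (EN N)) (s := s) (t := t) Metric.isClosed_cthickening hst
  have htc : IsCompact t := S.cptX.cthickening
  have hmem : ∀ (r : ℝ) (y : EN N), 0 ≤ r → (y ∈ Metric.cthickening r S.X ↔
      Metric.infDist y S.X ≤ r) := by
    intro r y hr
    rw [Metric.mem_cthickening_iff, Metric.infDist]
    constructor
    · intro h
      exact ENNReal.toReal_le_of_le_ofReal hr h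
    · intro h
      rw [← ENNReal.ofReal_toReal (Metric.infEDist_ne_top S.neX)]
      exact ENNReal.ofReal_le_ofReal h
  refine ⟨f, f.contMDiff.continuous, HasCompactSupport.intro htc hf0, ?_, ?_⟩
  · have h1 : tsupport f ⊆ t := by
      apply closure_minimal _ Metric.isClosed_cthickening
      intro y hy
      by_contra h
      exact hy (hf0 y h)
    intro y hy
    have h2 := (hmem _ y (by positivity)).mp (h1 hy)
    exact mem_U_of_infDist S (h2.trans (by linarith))
  · intro y hy
    exact hf1.self_of_nhdsSet y ((hmem _ y (by positivity)).mpr hy)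

/-- a smoothing kernel -/
theorem exists_phi (N : ℕ) (δ : ℝ) (hδ : 0 < δ) : ∃ φ : EN N → ℝ, Ker δ φ ∧ (∀ t, 0 ≤ φ t) ∧
    ∫ t in Metric.closedBall (0 : EN N) δ, φ t = 1 := by
  let f : ContDiffBump (0 : EN N) := ⟨δ / 2, δ, by positivity, by linarith⟩
  have hs : ∀ t, t ∉ Metric.closedBall (0 : EN N) δ → f.normed volume t = 0 := by
    intro t ht
    by_contra h
    have h1 : t ∈ Function.support (f.normed volume) := h
    rw [f.support_normed_eq] at h1
    exact ht (Metric.ball_subset_closedBall h1)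
  refine ⟨f.normed volume, ⟨f.contDiff_normed, hs⟩, fun t => f.nonneg_normed t, ?_⟩
  rw [setIntegral_eq_integral_of_forall_compl_eq_zero hs]
  exact f.integral_normed

/-- the projection on tangential forms, as a continuous linear map -/
noncomputable def PD (S : Setup N) (y : EN N) : BW (EN N) →L[ℝ] BW (EN N) :=
  pullC (fderiv ℝ S.rho y)

theorem continuous_PD : Continuous (PD S) := continuous_pullC (contDiff_fderiv' S.smooth_rho)

theorem mkDat {χ : EN N → ℝ} (h1 : Continuous χ) (h2 : HasCompactSupport χ)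
    (h3 : tsupport χ ⊆ S.U) : Dat S.X S.U S.rho (PD S) χ where
  cpt := S.cptX
  opn := S.openU
  cont_ρ := S.smooth_rho.continuous
  mem := S.rho_mem
  cont_P := continuous_PD S
  cont_χ := h1
  cs := h2
  ts := h3

end Pool.Agent.W_MP_d8b8b7_h67
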