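import Mathlib
import Pool.Agent.W_MP_d8b8b7_h67.Geo

set_option autoImplicit false
set_option linter.unusedSectionVars false
set_option linter.style.haveILetI false

/-!
# Smooth closed and exact forms as subspaces of `C(X, Bil)`; the smoothing operator on them
-/

namespace Pool.Agent.W_MP_d8b8b7_h67

open Pool.Agent.W_MP_d8b8b7_gt
open MeasureTheory Set Filter Topology BoundedContinuousFunction
open scoped ContDiff NNReal

variable {N : ℕ} (S : Setup N)

/-- continuous fields of bilinear forms on `X` -/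
abbrev YY (S : Setup N) : Type := ↥S.X →ᵇ BW (EN N)

/-- restriction of a form to `X` (tangential part) -/
noncomputable def rst (γ : EN N → Bil N) (hγ : ContDiff ℝ ∞ γ) : YY S :=
  haveI : CompactSpace ↥S.X := isCompact_iff_compactSpace.mp S.cptX
  mkOfCompact ⟨fun x => PD S x (γ x), by
    have h1 : Continuous (fun x : EN N => (γ x : BW (EN N))) := hγ.continuous
    exact ((continuous_PD S).comp continuous_subtype_val).clm_apply
      (h1.comp continuous_subtype_val)⟩

theorem rst_apply (γ : EN N → Bil N) (hγ : ContDiff ℝ ∞ γ) (x : ↥S.X) :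
    rst S γ hγ x = PD S x (γ x) := rfl

/-- closed smooth forms -/
def ZZ : Submodule ℝ (YY S) where
  carrier := {h | ∃ γ : EN N → Bil N, IsForm γ ∧ S.Closed γ ∧ ∀ x : ↥S.X, h x = PD S x (γ x)}
  add_mem' := by
    rintro h h' ⟨γ, hγ, hc, he⟩ ⟨γ', hγ', hc', he'⟩
    refine ⟨fun x => γ x + γ' x, ⟨hγ.smooth.add hγ'.smooth, fun x v => ?_⟩, ?_, ?_⟩
    · show γ x v v + γ' x v v = 0
      rw [hγ.alt, hγ'.alt, add_zero]
    · intro x hx u v w hu hv hw
      have h1 : gTwo γ x u v w = 0 := hc x hx u v w hu hv hw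
      have h2 : gTwo γ' x u v w = 0 := hc' x hx u v w hu hv hw
      have h3 := gTwo_add hγ.smooth hγ'.smooth x u v w
      rw [h1, h2, add_zero] at h3
      exact h3
    · intro x
      show h x + h' x = _
      rw [he, he']
      exact (map_add (PD S x) (γ x : BW (EN N)) (γ' x : BW (EN N))).symm
  zero_mem' := by
    refine ⟨fun _ => 0, ⟨contDiff_const, fun x v => rfl⟩, ?_, ?_⟩
    · intro x hx u v w hu hv hw
      exact gTwo_zero x u v w
    · intro x
      exact (map_zero (PD S x)).symm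
  smul_mem' := by
    rintro c h ⟨γ, hγ, hc, he⟩
    refine ⟨fun x => c • γ x, ⟨contDiff_smul2 hγ.smooth c, fun x v => ?_⟩, ?_, ?_⟩
    · show c * γ x v v = 0
      rw [hγ.alt, mul_zero]
    · intro x hx u v w hu hv hw
      have h1 : gTwo γ x u v w = 0 := hc x hx u v w hu hv hw
      have h3 := gTwo_smul hγ.smooth c x u v w
      rw [h1, mul_zero] at h3
      exact h3
    · intro x
      show c • h x = _
      rw [he]
      exact (map_smul (PD S x) c (γ x : BW (EN N))).symm

/-- exact smooth forms -/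
def BB : Submodule ℝ (YY S) where
  carrier := {h | ∃ α : EN N → Cov N, IsOne α ∧ ∀ x : ↥S.X, h x = PD S x (dOne α x)}
  add_mem' := by
    rintro h h' ⟨α, hα, he⟩ ⟨α', hα', he'⟩
    refine ⟨fun x => α x + α' x, ContDiff.add hα hα', ?_⟩
    intro x
    show h x + h' x = _
    rw [he, he']
    have h1 : dOne (fun x => α x + α' x) x = dOne α x + dOne α' x := gOne_add hα hα' x
    rw [h1]
    exact (map_add (PD S x) (dOne α x : BW (EN N)) (dOne α' x : BW (EN N))).symm
  zero_mem' := by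
    refine ⟨fun _ => 0, contDiff_const, ?_⟩
    intro x
    have h1 : dOne (fun _ : EN N => (0 : Cov N)) x = 0 := gOne_zero (x : EN N)
    rw [h1]
    exact (map_zero (PD S x)).symm
  smul_mem' := by
    rintro c h ⟨α, hα, he⟩
    refine ⟨fun x => c • α x, contDiff_smul1 hα c, ?_⟩
    intro x
    show c • h x = _
    rw [he]
    have h1 : dOne (fun x => c • α x) x = c • dOne α x := gOne_smul hα c x
    rw [h1]
    exact (map_smul (PD S x) c (dOne α x : BW (EN N))).symm

theorem isForm_dOne {α : EN N → Cov N} (hα : IsOne α) : IsForm (dOne α) where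
  smooth := Bil.contDiff_toCLM.mpr (contDiff_gOne hα)
  alt := fun x v => sub_self (fderiv ℝ α x v v)

theorem BB_le_ZZ : BB S ≤ ZZ S := by
  rintro h ⟨α, hα, he⟩
  refine ⟨dOne α, isForm_dOne hα, ?_, he⟩
  intro x hx u v w hu hv hw
  exact gTwo_gOne hα x u v w

variable {χ φ : EN N → ℝ} {δ : ℝ}

/-- smoothing of a closed form, near `X` -/
theorem sm_closed (hδ : δ ≤ S.d0 / 4) (hφ : ContDiff ℝ ∞ φ)
    (hφ1 : ∫ t in Metric.closedBall (0 : EN N) δ, φ t = 1)
    (hχ : ∀ y, Metric.infDist y S.X ≤ S.d0 / 2 → χ y = 1)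
    {z : YY S} {γ : EN N → Bil N} (hγ : IsForm γ) (hc : S.Closed γ)
    (hz : ∀ x : ↥S.X, z x = PD S x (γ x)) {x : EN N} (hx : Metric.infDist x S.X ≤ S.d0 / 4) :
    sm volume δ φ S.rho (PD S) χ z x =
      gOne (kOp volume δ φ (pb S.rho γ)) x + pb S.rho γ x := by
  have hd := S.d0_pos
  have hdist : ∀ t ∈ Metric.closedBall (0 : EN N) δ, ∀ τ ∈ Icc (0 : ℝ) 1,
      Metric.infDist (x - τ • t) S.X ≤ S.d0 / 2 := by
    intro t ht τ hτ
    have h1 : Metric.infDist (x - τ • t) S.X ≤ Metric.infDist x S.X + dist (x - τ • t) x :=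
      Metric.infDist_le_infDist_add_dist
    have h2 : dist (x - τ • t) x ≤ δ := by
      rw [dist_eq_norm, sub_sub_cancel_left, norm_neg, norm_smul, Real.norm_eq_abs,
        abs_of_nonneg hτ.1]
      rw [mem_closedBall_zero_iff] at ht
      calc τ * ‖t‖ ≤ 1 * ‖t‖ := mul_le_mul_of_nonneg_right hτ.2 (norm_nonneg _)
        _ = ‖t‖ := one_mul _
        _ ≤ δ := ht
    linarith
  have h1 := homotopy (V := EN N) volume δ hφ (contDiff_pb S.smooth_rho hγ.smooth) x (by
    intro t ht τ hτ u v w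
    exact closed_pb S hγ hc (mem_U_of_infDist S ((hdist t ht τ hτ).trans (by linarith))) u v w)
  rw [hφ1, one_smul] at h1
  have h0 : sm volume δ φ S.rho (PD S) χ z x = avg volume δ φ (pb S.rho γ) x := ?_
  · exact h0.trans (eq_add_of_sub_eq h1.symm)
  unfold sm avg
  refine setIntegral_congr_fun Metric.isClosed_closedBall.measurableSet ?_
  intro t ht
  have h2 := hdist t ht 1 ⟨zero_le_one, le_refl _⟩
  rw [one_smul] at h2
  have hU : x - t ∈ S.U := mem_U_of_infDist S (h2.trans (by linarith))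
  show φ t • gfun S.rho (PD S) χ z (x - t) = φ t • pb S.rho γ (x - t)
  rw [gfun_of_mem z (S.rho_mem _ hU), hχ _ h2, one_smul, hz]
  congr 1
  exact pull_pull S hU (γ (S.rho (x - t)))

theorem infDist_X {x : EN N} (hx : x ∈ S.X) : Metric.infDist x S.X = 0 :=
  Metric.infDist_zero_of_mem hx

theorem PD_pb (γ : EN N → Bil N) {x : EN N} (hx : x ∈ S.X) :
    PD S x (pb S.rho γ x) = PD S x (γ x) := by
  have h1 : pb S.rho γ x = pull (fderiv ℝ S.rho x) (γ x) := by
    unfold pb
    rw [S.rho_fix x hx]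
  rw [h1]
  have h2 := pull_pull S (S.subU hx) (γ x)
  rw [S.rho_fix x hx] at h2
  exact h2

/-- `z - R z` is exact -/
theorem sub_sm_exact (hδ : δ ≤ S.d0 / 4) (hφ : ContDiff ℝ ∞ φ)
    (hφ1 : ∫ t in Metric.closedBall (0 : EN N) δ, φ t = 1)
    (hχ : ∀ y, Metric.infDist y S.X ≤ S.d0 / 2 → χ y = 1)
    {z w : YY S} (hz : z ∈ ZZ S)
    (hw : ∀ x : ↥S.X, w x = z x - PD S x (sm volume δ φ S.rho (PD S) χ z x)) : w ∈ BB S := by
  have hd := S.d0_pos
  obtain ⟨γ, hγ, hc, he⟩ := hz
  have hk : ContDiff ℝ ∞ (kOp volume δ φ (pb S.rho γ)) :=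
    contDiff_kOp volume δ hφ (contDiff_pb S.smooth_rho hγ.smooth)
  refine ⟨fun x => - kOp volume δ φ (pb S.rho γ) x, hk.neg, ?_⟩
  intro x
  have h1 : dOne (fun x => - kOp volume δ φ (pb S.rho γ) x) x =
      - gOne (kOp volume δ φ (pb S.rho γ)) x := gOne_neg hk x
  rw [h1, hw x, he x, sm_closed S hδ hφ hφ1 hχ hγ hc he
    (by rw [infDist_X S x.2]; positivity)]
  have h2 : PD S x (gOne (kOp volume δ φ (pb S.rho γ)) x + pb S.rho γ x) =
      PD S x (gOne (kOp volume δ φ (pb S.rho γ)) x) + PD S x (pb S.rho γ x) :=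
    map_add (PD S x) (gOne (kOp volume δ φ (pb S.rho γ)) x : BW (EN N))
      (pb S.rho γ x : BW (EN N))
  have h3 : PD S x (- gOne (kOp volume δ φ (pb S.rho γ)) x) =
      - PD S x (gOne (kOp volume δ φ (pb S.rho γ)) x) :=
    map_neg (PD S x) (gOne (kOp volume δ φ (pb S.rho γ)) x : BW (EN N))
  rw [h2, h3, PD_pb S γ x.2]
  abel

/-- the smoothed field, as a field of bilinear forms -/
noncomputable def smF (S : Setup N) (χ φ : EN N → ℝ) (δ : ℝ) (z : YY S) : EN N → Bil N :=
  sm (W := BW (EN N)) volume δ φ S.rho (PD S) χ z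

/-- smoothing of a closed form is closed -/
theorem gTwo_sm (hδ : δ ≤ S.d0 / 4) (hφ : ContDiff ℝ ∞ φ)
    (hφ1 : ∫ t in Metric.closedBall (0 : EN N) δ, φ t = 1)
    (hχ : ∀ y, Metric.infDist y S.X ≤ S.d0 / 2 → χ y = 1)
    {z : YY S} (hz : z ∈ ZZ S) {x : EN N} (hx : x ∈ S.X) (u v w : EN N) :
    gTwo (V := EN N) (smF S χ φ δ z) x u v w = 0 := by
  have hd := S.d0_pos
  obtain ⟨γ, hγ, hc, he⟩ := hz
  have hk : ContDiff ℝ ∞ (kOp volume δ φ (pb S.rho γ)) :=
    contDiff_kOp volume δ hφ (contDiff_pb S.smooth_rho hγ.smooth)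
  have h2 : {y | Metric.infDist y S.X < S.d0 / 4} ∈ 𝓝 x := by
    apply (isOpen_lt (Metric.continuous_infDist_pt _) continuous_const).mem_nhds
    show Metric.infDist x S.X < S.d0 / 4
    rw [infDist_X S hx]
    positivity
  refine gTwo_eq_zero_of (V := EN N) hk (contDiff_pb S.smooth_rho hγ.smooth) ?_ u v w
    (closed_pb S hγ hc (S.subU hx) u v w)
  filter_upwards [h2] with y hy
  exact sm_closed S hδ hφ hφ1 hχ hγ hc he (le_of_lt hy)

end Pool.Agent.W_MP_d8b8b7_h67
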