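import Mathlib
import Pool.Agent.W_MP_d8b8b7_h67.Sub

set_option autoImplicit false
set_option linter.unusedSectionVars false
set_option linter.style.haveILetI false

/-!
# The smoothing operator maps the closure of the closed forms to closed forms
-/

namespace Pool.Agent.W_MP_d8b8b7_h67

open Pool.Agent.W_MP_d8b8b7_gt
open MeasureTheory Set Filter Topology BoundedContinuousFunction
open scoped ContDiff NNReal

variable {N : ℕ} (S : Setup N)

/-- evaluation of a field at a point -/
theorem continuous_eval (x : ↥S.X) (v : EN N) :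
    Continuous (fun h : YY S => evB v v (h x)) :=
  (evB v v).continuous.comp (BoundedContinuousFunction.evalCLM ℝ x).continuous

theorem alt_of_closure {h : YY S} (hh : h ∈ (ZZ S).topologicalClosure) (x : ↥S.X) (v : EN N) :
    evB v v (h x) = 0 := by
  have h1 : IsClosed {h : YY S | evB v v (h x) = 0} :=
    isClosed_singleton.preimage (continuous_eval S x v)
  have h2 : ((ZZ S : Submodule ℝ (YY S)) : Set (YY S)) ⊆ {h : YY S | evB v v (h x) = 0} := by
    rintro z ⟨γ, hγ, -, he⟩
    show evB v v (z x) = 0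
    rw [he]
    exact hγ.alt x (fderiv ℝ S.rho x v)
  exact closure_minimal h2 h1 hh

variable {χ φ : EN N → ℝ} {δ : ℝ}

theorem sm_alt (H : Dat S.X S.U S.rho (PD S) χ) (K : Ker δ φ) {h : YY S}
    (hh : h ∈ (ZZ S).topologicalClosure) (x v : EN N) :
    evB v v (sm volume δ φ S.rho (PD S) χ h x) = 0 := by
  have h1 := avg_apply (V := EN N) (W := BW (EN N)) volume δ K.smooth.continuous
    (gfun_continuous H h) (evB v v) x
  refine h1.trans ?_
  have h2 : ∀ y : EN N, evB v v (gfun S.rho (PD S) χ h y) = 0 := by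
    intro y
    by_cases hy : S.rho y ∈ S.X
    · rw [gfun_of_mem h hy, map_smul]
      have h3 : evB v v (PD S y (h ⟨S.rho y, hy⟩)) =
          evB (fderiv ℝ S.rho y v) (fderiv ℝ S.rho y v) (h ⟨S.rho y, hy⟩) := rfl
      rw [h3, alt_of_closure S hh, smul_zero]
    · have h3 : gfun S.rho (PD S) χ h y = 0 := dif_neg hy
      rw [h3, map_zero]
  simp [h2]

/-- the smoothing operator on fields -/
noncomputable def RR (H : Dat S.X S.U S.rho (PD S) χ) (K : Ker δ φ) : YY S →L[ℝ] YY S :=
  (psiOp H).comp (smOp volume δ H K)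

theorem RR_apply (H : Dat S.X S.U S.rho (PD S) χ) (K : Ker δ φ) (h : YY S) (x : ↥S.X) :
    RR S H K h x = PD S x (sm volume δ φ S.rho (PD S) χ h x) := rfl

theorem RR_compact (H : Dat S.X S.U S.rho (PD S) χ) (K : Ker δ φ) :
    IsCompactOperator (RR S H K) :=
  (smOp_compact volume δ H K).clm_comp (psiOp H)

theorem RR_sub (H : Dat S.X S.U S.rho (PD S) χ) (K : Ker δ φ) (hδ : δ ≤ S.d0 / 4)
    (hφ1 : ∫ t in Metric.closedBall (0 : EN N) δ, φ t = 1)
    (hχ : ∀ y, Metric.infDist y S.X ≤ S.d0 / 2 → χ y = 1) {z : YY S} (hz : z ∈ ZZ S) :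
    z - RR S H K z ∈ BB S :=
  sub_sm_exact S hδ K.smooth hφ1 hχ hz (fun _ => rfl)

theorem RR_closure (H : Dat S.X S.U S.rho (PD S) χ) (K : Ker δ φ) (hδ : δ ≤ S.d0 / 4)
    (hφ1 : ∫ t in Metric.closedBall (0 : EN N) δ, φ t = 1)
    (hχ : ∀ y, Metric.infDist y S.X ≤ S.d0 / 2 → χ y = 1) {z : YY S}
    (hz : z ∈ (ZZ S).topologicalClosure) : RR S H K z ∈ ZZ S := by
  refine ⟨smF S χ φ δ z, ⟨?_, ?_⟩, ?_, fun x => rfl⟩
  · exact contDiff_sm (W := BW (EN N)) volume δ H K.smooth K.supp z
  · intro x v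
    exact sm_alt S H K hz x v
  · intro x hx u v w _ _ _
    have hcl : z ∈ closure ((ZZ S : Submodule ℝ (YY S)) : Set (YY S)) := hz
    rw [mem_closure_iff_seq_limit] at hcl
    obtain ⟨f, hf, hlim⟩ := hcl
    have h1 := tendsto_fderiv_sm (W := BW (EN N)) volume δ H K hlim x
    have h2 : ∀ a b c : EN N, Tendsto (fun n => evB b c
        (fderiv ℝ (sm (W := BW (EN N)) volume δ φ S.rho (PD S) χ (f n)) x a)) atTop
        (𝓝 (evB b c (fderiv ℝ (sm (W := BW (EN N)) volume δ φ S.rho (PD S) χ z) x a))) := by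
      intro a b c
      have h3 := ((ContinuousLinearMap.apply ℝ (BW (EN N)) a).continuous.tendsto _).comp h1
      exact ((evB b c).continuous.tendsto _).comp h3
    have h4 := ((h2 u v w).sub (h2 v u w)).add (h2 w u v)
    have h5 : ∀ n, evB v w (fderiv ℝ (sm (W := BW (EN N)) volume δ φ S.rho (PD S) χ (f n)) x u)
        - evB u w (fderiv ℝ (sm (W := BW (EN N)) volume δ φ S.rho (PD S) χ (f n)) x v)
        + evB u v (fderiv ℝ (sm (W := BW (EN N)) volume δ φ S.rho (PD S) χ (f n)) x w) = 0 :=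
      fun n => gTwo_sm S hδ K.smooth hφ1 hχ (hf n) hx u v w
    simp only [h5] at h4
    exact (tendsto_nhds_unique h4 tendsto_const_nhds)

end Pool.Agent.W_MP_d8b8b7_h67
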