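import Mathlib
import Pool.Agent.W_MP_d8b8b7_h67.Clos
import Pool.Agent.W_MP_d8b8b7_gt.PtBound

set_option autoImplicit false
set_option linter.unusedSectionVars false
set_option linter.style.haveILetI false

/-!
# Exactness lemma
-/

namespace Pool.Agent.W_MP_d8b8b7_h67

open Pool.Agent.W_MP_d8b8b7_gt
open MeasureTheory Set Filter Topology BoundedContinuousFunction
open scoped ContDiff NNReal ENNReal

variable {N : ℕ} (S : Setup N)

/-- change of variables -/
theorem lintegral_ball_le {δ r : ℝ} (hr : 0 < r) (hδ : δ < r) (F : EN N → ℝ≥0∞)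
    (hF : Measurable F) : ∫⁻ t in Metric.closedBall (0 : EN N) δ, F t ≤
      ENNReal.ofReal (r ^ Module.finrank ℝ (EN N)) *
        ∫⁻ s in Metric.ball (0 : EN N) 1, F (-(r • s)) := by
  have hR : (-r) ≠ 0 := by linarith
  have h1 : Measure.map (fun s : EN N => (-r) • s) volume =
      ENNReal.ofReal (|((-r) ^ Module.finrank ℝ (EN N))⁻¹|) • (volume : Measure (EN N)) :=
    Measure.map_addHaar_smul volume hR
  have hmeas : Measurable (fun s : EN N => (-r) • s) := by fun_prop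
  have h2 : ∫⁻ s in Metric.ball (0 : EN N) 1, F (-(r • s)) =
      ∫⁻ s, (Metric.ball (0 : EN N) r).indicator F ((-r) • s) := by
    rw [← lintegral_indicator Metric.isOpen_ball.measurableSet]
    congr 1
    funext s
    have hiff : s ∈ Metric.ball (0 : EN N) 1 ↔ (-r) • s ∈ Metric.ball (0 : EN N) r := by
      rw [mem_ball_zero_iff, mem_ball_zero_iff, norm_smul, norm_neg, Real.norm_eq_abs,
        abs_of_pos hr]
      constructor
      · intro h; nlinarith
      · intro h; by_contra hc; push Not at hc; nlinarith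
    by_cases hs : s ∈ Metric.ball (0 : EN N) 1
    · rw [indicator_of_mem hs, indicator_of_mem (hiff.mp hs), neg_smul]
    · rw [indicator_of_notMem hs, indicator_of_notMem (fun h => hs (hiff.mpr h))]
  have h3 : ∫⁻ s, (Metric.ball (0 : EN N) r).indicator F ((-r) • s) =
      ENNReal.ofReal (|((-r) ^ Module.finrank ℝ (EN N))⁻¹|) * ∫⁻ t in Metric.ball (0 : EN N) r, F t := by
    rw [← lintegral_map (hF.indicator Metric.isOpen_ball.measurableSet) hmeas, h1,
      lintegral_smul_measure, lintegral_indicator Metric.isOpen_ball.measurableSet, smul_eq_mul]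
  rw [h2, h3, ← mul_assoc, ← ENNReal.ofReal_mul (by positivity)]
  have h4 : r ^ Module.finrank ℝ (EN N) * |((-r) ^ Module.finrank ℝ (EN N))⁻¹| = 1 := by
    rw [abs_inv, abs_pow, abs_neg, abs_of_pos hr]
    exact mul_inv_cancel₀ (by positivity)
  rw [h4, ENNReal.ofReal_one, one_mul]
  exact lintegral_mono_set (Metric.closedBall_subset_ball hδ)

/-- `L1` bound of averages over the fibres of the retraction -/
theorem exists_avg_bound : ∃ C : ℝ≥0∞, C ≠ ⊤ ∧ ∀ f : EN N → ℝ≥0∞, Measurable f → ∀ x ∈ S.X,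
    ∫⁻ t in Metric.closedBall (0 : EN N) (S.d0 / 4), f (S.rho (x - t)) ≤ C * ∫⁻ y, f y ∂S.nu := by
  have hd := S.d0_pos
  refine ⟨ENNReal.ofReal ((S.d0 / 2) ^ Module.finrank ℝ (EN N)) *
    ENNReal.ofReal (S.C1 * (S.d0 / 2)⁻¹ ^ 4), ENNReal.mul_ne_top ENNReal.ofReal_ne_top
    ENNReal.ofReal_ne_top, ?_⟩
  intro f hf x hx
  have h1 := lintegral_ball_le (N := N) (δ := S.d0 / 4) (r := S.d0 / 2) (by positivity)
    (by linarith) (fun t => f (S.rho (x - t)))
    (hf.comp (S.smooth_rho.continuous.comp (by fun_prop)).measurable)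
  refine h1.trans ?_
  rw [mul_assoc]
  refine mul_le_mul_right ?_ _
  have h2 := S.ker_up x hx (S.d0 / 2) (by positivity) (by linarith) f hf
  have h3 : ∀ s : EN N, x - -((S.d0 / 2) • s) = x + (S.d0 / 2) • s := fun s => sub_neg_eq_add _ _
  simp only [h3]
  refine h2.trans ?_
  exact mul_le_mul_right (lintegral_mono' Measure.restrict_le_self (le_refl _)) _

variable {χ φ : EN N → ℝ} {δ : ℝ}

/-- the smoothing operator is bounded from `L1` to `C0` -/
theorem exists_RR_bound (H : Dat S.X S.U S.rho (PD S) χ) (K : Ker (S.d0 / 4) φ) :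
    ∃ C : ℝ, 0 ≤ C ∧ ∀ (β : EN N → Bil N) (hβ : IsForm β),
      ‖RR S H K (rst S β hβ.smooth)‖ ≤ C * ∫ y, ‖S.cp β y‖ ∂S.nu := by
  have hd := S.d0_pos
  obtain ⟨Cφ, hCφ⟩ := K.exists_bound
  obtain ⟨Ck, hCk⟩ := (kfun_continuous H).bounded_above_of_compact_support (kfun_compact H)
  obtain ⟨CP, hCP0, hCP⟩ := exists_bound_P H
  obtain ⟨Cb, hCb1, hCb, -⟩ := S.exists_bound
  obtain ⟨Ca, hCa, hCav⟩ := exists_avg_bound S
  have hCφ0 : 0 ≤ Cφ := (norm_nonneg _).trans (hCφ 0)
  have hCk0 : 0 ≤ Ck := (norm_nonneg _).trans (hCk 0)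
  have hCb0 : 0 ≤ Cb := by linarith
  refine ⟨CP * (Cφ * Ck * Cb * Ca.toReal), by positivity, ?_⟩
  intro β hβ
  have hL2 := S.L2F_cp hβ.smooth.continuous
  have hint : Integrable (fun y => ‖S.cp β y‖) S.nu :=
    (hL2.memLp.integrable (by norm_num)).norm
  have hI0 : 0 ≤ ∫ y, ‖S.cp β y‖ ∂S.nu := integral_nonneg fun y => norm_nonneg _
  rw [BoundedContinuousFunction.norm_le (by positivity)]
  intro x
  rw [RR_apply, mul_assoc]
  refine ((PD S x).le_opNorm _).trans (mul_le_mul (hCP x x.2) ?_ (norm_nonneg _) hCP0)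
  -- bound of the average
  have hpt : ∀ t ∈ Metric.closedBall (0 : EN N) (S.d0 / 4),
      ‖φ t • gfun S.rho (PD S) χ (rst S β hβ.smooth) ((x : EN N) - t)‖ ≤
        Cφ * Ck * Cb * ‖S.cp β (S.rho (x - t))‖ := by
    intro t ht
    rw [mem_closedBall_zero_iff] at ht
    have hU : (x : EN N) - t ∈ S.U := by
      have := S.tube x x.2 (-t) (by rw [norm_neg]; linarith)
      rwa [← sub_eq_add_neg] at this
    have hX := S.rho_mem _ hU
    rw [gfun_of_mem _ hX, norm_smul, norm_smul, rst_apply]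
    have h2 : ‖PD S ((x : EN N) - t) (PD S (S.rho (x - t)) (β (S.rho (x - t))))‖ ≤
        ‖PD S ((x : EN N) - t)‖ * ‖PD S (S.rho (x - t)) (β (S.rho (x - t)))‖ :=
      (PD S ((x : EN N) - t)).le_opNorm _
    have h3 : ‖PD S (S.rho ((x : EN N) - t)) (β (S.rho (x - t)))‖ ≤
        Cb * ‖S.cp β (S.rho (x - t))‖ := by
      have h4 := S.rc_cp hX β (hβ.alt _)
      have h5 := (hCb (S.rho (x - t)) hX).2.2.2.2.1 (S.cp β)
      rw [h4] at h5
      exact h5
    have h6 : ‖χ ((x : EN N) - t)‖ * ‖PD S ((x : EN N) - t)‖ ≤ Ck := by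
      exact (le_abs_self _).trans (hCk ((x : EN N) - t))
    calc ‖φ t‖ * (‖χ ((x : EN N) - t)‖ * ‖PD S ((x : EN N) - t)
            (PD S (S.rho (x - t)) (β (S.rho (x - t))))‖)
        ≤ Cφ * (‖χ ((x : EN N) - t)‖ * (‖PD S ((x : EN N) - t)‖ *
            (Cb * ‖S.cp β (S.rho (x - t))‖))) := by
          refine mul_le_mul (hCφ t) ?_ (by positivity) hCφ0
          refine mul_le_mul_of_nonneg_left ?_ (norm_nonneg _)
          exact h2.trans (mul_le_mul_of_nonneg_left h3 (norm_nonneg _))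
      _ = Cφ * ((‖χ ((x : EN N) - t)‖ * ‖PD S ((x : EN N) - t)‖) *
            (Cb * ‖S.cp β (S.rho (x - t))‖)) := by ring
      _ ≤ Cφ * (Ck * (Cb * ‖S.cp β (S.rho (x - t))‖)) := by
          refine mul_le_mul_of_nonneg_left ?_ hCφ0
          exact mul_le_mul_of_nonneg_right h6 (by positivity)
      _ = _ := by ring
  have hmcp : Measurable (fun y => ‖S.cp β y‖ₑ) := hL2.meas.enorm
  have h7 : ‖sm volume (S.d0 / 4) φ S.rho (PD S) χ (rst S β hβ.smooth) x‖ₑ ≤
      ENNReal.ofReal (Cφ * Ck * Cb) * (Ca * ∫⁻ y, ‖S.cp β y‖ₑ ∂S.nu) := by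
    unfold sm avg
    refine (enorm_integral_le_lintegral_enorm _).trans ?_
    refine le_trans ?_ (mul_le_mul_right (hCav _ hmcp x x.2) _)
    rw [← lintegral_const_mul' _ _ ENNReal.ofReal_ne_top]
    refine setLIntegral_mono' Metric.isClosed_closedBall.measurableSet ?_
    intro t ht
    have h8 := hpt t ht
    rw [← ofReal_norm_eq_enorm, ← ofReal_norm_eq_enorm, ← ENNReal.ofReal_mul (by positivity)]
    exact ENNReal.ofReal_le_ofReal h8
  have h9 : ∫⁻ y, ‖S.cp β y‖ₑ ∂S.nu = ENNReal.ofReal (∫ y, ‖S.cp β y‖ ∂S.nu) := by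
    rw [ofReal_integral_eq_lintegral_ofReal hint (Eventually.of_forall fun y => norm_nonneg _)]
    simp only [ofReal_norm_eq_enorm]
  rw [h9, show Ca = ENNReal.ofReal Ca.toReal from (ENNReal.ofReal_toReal hCa).symm, ← ENNReal.ofReal_mul ENNReal.toReal_nonneg,
    ← ENNReal.ofReal_mul (by positivity), ← ofReal_norm_eq_enorm,
    ENNReal.ofReal_le_ofReal_iff (by positivity)] at h7
  calc _ ≤ _ := h7
    _ = _ := by ring

theorem rst_sub (β γ : EN N → Bil N) (hβ : ContDiff ℝ ∞ β) (hγ : ContDiff ℝ ∞ γ)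
    (h : ContDiff ℝ ∞ (fun x => β x - γ x)) :
    rst S (fun x => β x - γ x) h = rst S β hβ - rst S γ hγ := by
  ext x
  exact map_sub (PD S x) (β x : BW (EN N)) (γ x : BW (EN N))

theorem cp_sub (β γ : EN N → Bil N) (x : EN N) :
    S.cp (fun x => β x - γ x) x = S.cp β x - S.cp γ x := by
  unfold Setup.cp comp6
  ext i
  fin_cases i <;> simp

/-- **exactness lemma**: a smooth closed form in the L2 closure of the exact forms is exact -/
theorem exact_of_closure (b : EN N → Bil N) (hb : IsForm b) (hc : S.Closed b)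
    (h : ∀ ε > 0, ∃ α, IsOne α ∧ ∫ x, ‖S.cp b x - S.cp (dOne α) x‖ ^ 2 ∂S.nu < ε) :
    ∃ α, IsOne α ∧ ∀ x ∈ S.X, ∀ u v, S.Tan x u → S.Tan x v → b x u v = dOne α x u v := by
  have hd := S.d0_pos
  obtain ⟨χ, hχ1, hχ2, hχ3, hχ⟩ := exists_chi S
  obtain ⟨φ, K, -, hφ1⟩ := exists_phi N (S.d0 / 4) (by positivity)
  have H := mkDat S hχ1 hχ2 hχ3
  obtain ⟨C, hC0, hC⟩ := exists_RR_bound S H K
  have hbZ : rst S b hb.smooth ∈ ZZ S := ⟨b, hb, hc, fun _ => rfl⟩
  have hRZ : RR S H K (rst S b hb.smooth) ∈ ZZ S :=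
    RR_closure S H K (le_refl _) hφ1 hχ ((ZZ S).le_topologicalClosure hbZ)
  have hcl : RR S H K (rst S b hb.smooth) ∈ closure ((BB S : Submodule ℝ (YY S)) : Set (YY S)) := by
    rw [Metric.mem_closure_iff]
    intro ε hε
    set m : ℝ := (S.nu univ).toReal with hm
    have hm0 : 0 ≤ m := ENNReal.toReal_nonneg
    obtain ⟨τ, hτ0, hτ⟩ : ∃ τ : ℝ, 0 < τ ∧ C * (τ * m + τ) < ε := by
      refine ⟨ε / (2 * (C + 1) * (m + 1)), by positivity, ?_⟩
      have h1 : C * (ε / (2 * (C + 1) * (m + 1)) * m + ε / (2 * (C + 1) * (m + 1))) =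
        ε / 2 * (C / (C + 1)) := by
        field_simp
      rw [h1]
      have h2 : C / (C + 1) ≤ 1 := by rw [div_le_one (by linarith)]; linarith
      nlinarith
    obtain ⟨α, hα, hαε⟩ := h (τ ^ 2) (by positivity)
    have hdα : IsForm (dOne α) := isForm_dOne hα
    have hdB : rst S (dOne α) hdα.smooth ∈ BB S := ⟨α, hα, fun _ => rfl⟩
    refine ⟨RR S H K (rst S (dOne α) hdα.smooth), ?_, ?_⟩
    · have h1 := RR_sub S H K (le_refl _) hφ1 hχ (BB_le_ZZ S hdB)
      have h2 := (BB S).sub_mem hdB h1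
      rwa [sub_sub_cancel] at h2
    · have hβ' : IsForm (fun x => b x - dOne α x) :=
        ⟨hb.smooth.sub hdα.smooth, fun x v => by
          rw [Bil.sub_apply, hb.alt, hdα.alt, sub_zero]⟩
      have h1 := hC _ hβ'
      rw [rst_sub S b (dOne α) hb.smooth hdα.smooth, map_sub] at h1
      rw [dist_eq_norm]
      refine lt_of_le_of_lt h1 (lt_of_le_of_lt (mul_le_mul_of_nonneg_left ?_ hC0) hτ)
      have hL2 := S.L2F_cp hβ'.smooth.continuous
      have hint : Integrable (fun y => ‖S.cp (fun x => b x - dOne α x) y‖) S.nu :=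
        (hL2.memLp.integrable (by norm_num)).norm
      have hint2 : Integrable (fun y => ‖S.cp (fun x => b x - dOne α x) y‖ ^ 2) S.nu :=
        hL2.memLp.integrable_norm_pow (by norm_num)
      have h3 : ∫ y, ‖S.cp (fun x => b x - dOne α x) y‖ ∂S.nu ≤
          ∫ y, (τ + τ⁻¹ * ‖S.cp (fun x => b x - dOne α x) y‖ ^ 2) ∂S.nu := by
        refine integral_mono hint ((integrable_const τ).add (hint2.const_mul _)) ?_
        intro y
        show ‖S.cp (fun x => b x - dOne α x) y‖ ≤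
          τ + τ⁻¹ * ‖S.cp (fun x => b x - dOne α x) y‖ ^ 2
        set r := ‖S.cp (fun x => b x - dOne α x) y‖
        have h4 : τ * r ≤ τ * (τ + τ⁻¹ * r ^ 2) := by
          have h5 : τ * (τ + τ⁻¹ * r ^ 2) = τ ^ 2 + r ^ 2 := by field_simp
          rw [h5]
          nlinarith [sq_nonneg (τ - r), sq_nonneg τ, sq_nonneg r]
        exact le_of_mul_le_mul_left h4 hτ0
      refine h3.trans ?_
      rw [integral_add (integrable_const τ) (hint2.const_mul _), integral_const,
        integral_const_mul]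
      have h6 : ∫ y, ‖S.cp (fun x => b x - dOne α x) y‖ ^ 2 ∂S.nu < τ ^ 2 := by
        have h7 : (fun y => ‖S.cp (fun x => b x - dOne α x) y‖ ^ 2) =
            fun y => ‖S.cp b y - S.cp (dOne α) y‖ ^ 2 := by
          funext y
          rw [cp_sub]
        rw [h7]
        exact hαε
      have h8 : τ⁻¹ * ∫ y, ‖S.cp (fun x => b x - dOne α x) y‖ ^ 2 ∂S.nu ≤ τ := by
        have h9 : τ⁻¹ * τ ^ 2 = τ := by field_simp
        calc _ ≤ τ⁻¹ * τ ^ 2 := mul_le_mul_of_nonneg_left h6.le (by positivity)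
          _ = τ := h9
      have h10 : S.nu.real univ • τ = τ * m := by
        rw [smul_eq_mul, mul_comm]
        rfl
      rw [h10]
      linarith
  have hRB := mem_of_mem_closure (RR S H K) (RR_compact S H K) (ZZ S) (BB S) (BB_le_ZZ S)
    (fun z hz => RR_closure S H K (le_refl _) hφ1 hχ hz)
    (fun z hz => RR_sub S H K (le_refl _) hφ1 hχ hz) _ hRZ hcl
  have hbB : rst S b hb.smooth ∈ BB S := by
    have h1 := (BB S).add_mem (RR_sub S H K (le_refl _) hφ1 hχ hbZ) hRB
    rwa [sub_add_cancel] at h1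
  obtain ⟨α, hα, he⟩ := hbB
  refine ⟨α, hα, ?_⟩
  intro x hx u v hu hv
  have h1 := he ⟨x, hx⟩
  rw [rst_apply] at h1
  have h2 : b x (fderiv ℝ S.rho x u) (fderiv ℝ S.rho x v) =
      dOne α x (fderiv ℝ S.rho x u) (fderiv ℝ S.rho x v) :=
    congrArg (fun L : BW (EN N) => evB u v L) h1
  have hu' : fderiv ℝ S.rho x u = u := hu
  have hv' : fderiv ℝ S.rho x v = v := hv
  rw [hu', hv'] at h2
  exact h2

end Pool.Agent.W_MP_d8b8b7_h67
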